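import Pool.Agent.Q145.MS.Defs

set_option autoImplicit false

namespace Pool.Agent.Q145.MS

open Set

variable {n : ℕ}

/-- the vector of a finset -/
noncomputable def ev (B : Finset (Fin n)) : Fin n → ℝ := fun i => if i ∈ B then 1 else 0

theorem vec_coe (B : Finset (Fin n)) : vec (B : Set (Fin n)) = ev B := by
  funext i
  by_cases h : i ∈ B
  · simp [vec, ev, h]
  · simp [vec, ev, h]

theorem ev_injective : Function.Injective (ev (n := n)) := by
  intro B C h
  ext i
  have := congrFun h i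
  unfold ev at this
  by_cases h1 : i ∈ B <;> by_cases h2 : i ∈ C <;> simp [h1, h2] at this ⊢

/-- polytope of a family of finsets -/
def poly (F : Finset (Finset (Fin n))) : Set (Fin n → ℝ) :=
  convexHull ℝ (ev '' (F : Set (Finset (Fin n))))

open Classical in
/-- the bases of a matroid, as finsets -/
noncomputable def bases (N : Matroid (Fin n)) : Finset (Finset (Fin n)) :=
  Finset.univ.filter (fun B => N.IsBase (B : Set (Fin n)))

theorem mem_bases {N : Matroid (Fin n)} {B : Finset (Fin n)} :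
    B ∈ bases N ↔ N.IsBase (B : Set (Fin n)) := by
  simp [bases]

theorem matroidPolytope_eq (N : Matroid (Fin n)) : matroidPolytope N = poly (bases N) := by
  unfold matroidPolytope poly
  congr 1
  ext v
  simp only [mem_setOf_eq, mem_image, Finset.mem_coe, mem_bases]
  constructor
  · rintro ⟨B, hB, rfl⟩
    refine ⟨B.toFinite.toFinset, by simpa using hB, ?_⟩
    rw [← vec_coe]; simp
  · rintro ⟨B, hB, rfl⟩
    exact ⟨B, hB, (vec_coe B).symm⟩

theorem hypersimplex_eq (k n : ℕ) :
    hypersimplex k n = poly (Finset.powersetCard k (Finset.univ : Finset (Fin n))) := by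
  unfold hypersimplex poly
  congr 1
  ext v
  simp only [mem_setOf_eq, mem_image, Finset.mem_coe, Finset.mem_powersetCard,
    Finset.subset_univ, true_and]
  constructor
  · rintro ⟨B, hB, rfl⟩
    refine ⟨B.toFinite.toFinset, ?_, ?_⟩
    · rw [← hB, ncard_eq_toFinset_card B B.toFinite]
    · rw [← vec_coe]; simp
  · rintro ⟨B, hB, rfl⟩
    exact ⟨B, by rw [ncard_coe_finset, hB], (vec_coe B).symm⟩

theorem mem_poly {F : Finset (Finset (Fin n))} {x : Fin n → ℝ} :
    x ∈ poly F ↔ ∃ w : Finset (Fin n) → ℝ, (∀ B, 0 ≤ w B) ∧ (∀ B, B ∉ F → w B = 0) ∧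
      ∑ B ∈ F, w B = 1 ∧ ∑ B ∈ F, w B • ev B = x := by
  classical
  have himg : ev '' (F : Set (Finset (Fin n))) = ((F.image ev : Finset (Fin n → ℝ)) : Set _) := by
    simp
  unfold poly
  rw [himg, Finset.mem_convexHull']
  constructor
  · rintro ⟨w, h0, h1, h2⟩
    refine ⟨fun B => if B ∈ F then w (ev B) else 0, ?_, ?_, ?_, ?_⟩
    · intro B
      by_cases hB : B ∈ F
      · simp only [hB, if_true]
        exact h0 _ (Finset.mem_image_of_mem _ hB)
      · simp [hB]
    · intro B hB; simp [hB]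
    · rw [Finset.sum_image (fun a _ b _ h => ev_injective h)] at h1
      rw [← h1]
      exact Finset.sum_congr rfl (fun B hB => by simp [hB])
    · rw [Finset.sum_image (fun a _ b _ h => ev_injective h)] at h2
      rw [← h2]
      exact Finset.sum_congr rfl (fun B hB => by simp [hB])
  · rintro ⟨w, h0, h1, h2, h3⟩
    refine ⟨fun v => w (Function.invFun ev v), fun v _ => h0 _, ?_, ?_⟩
    · rw [Finset.sum_image (fun a _ b _ h => ev_injective h)]
      rw [← h2]
      exact Finset.sum_congr rfl (fun B hB => by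
        simp only [Function.leftInverse_invFun ev_injective B])
    · rw [Finset.sum_image (fun a _ b _ h => ev_injective h)]
      rw [← h3]
      exact Finset.sum_congr rfl (fun B hB => by
        simp only [Function.leftInverse_invFun ev_injective B])

/-- sum of coordinates in `S` -/
noncomputable def sm (S : Finset (Fin n)) : (Fin n → ℝ) →ₗ[ℝ] ℝ :=
  ∑ i ∈ S, LinearMap.proj i

theorem sm_apply (S : Finset (Fin n)) (x : Fin n → ℝ) : sm S x = ∑ i ∈ S, x i := by
  simp [sm]

theorem sm_ev (S B : Finset (Fin n)) : sm S (ev B) = ((B ∩ S).card : ℝ) := by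
  rw [sm_apply]
  unfold ev
  rw [Finset.sum_ite_mem, Finset.sum_const, Finset.inter_comm]
  simp

theorem ev_mem_poly_of_mem {F : Finset (Finset (Fin n))} {B : Finset (Fin n)} (h : B ∈ F) :
    ev B ∈ poly F :=
  subset_convexHull ℝ _ ⟨B, h, rfl⟩

theorem convex_poly (F : Finset (Finset (Fin n))) : Convex ℝ (poly F) := convex_convexHull ℝ _

theorem poly_mono {F G : Finset (Finset (Fin n))} (h : F ⊆ G) : poly F ⊆ poly G :=
  convexHull_mono (image_mono (by exact_mod_cast h))

theorem isClosed_poly (F : Finset (Finset (Fin n))) : IsClosed (poly F) :=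
  ((F.finite_toSet.image ev).isCompact_convexHull (𝕜 := ℝ)).isClosed

theorem lin_le {F : Finset (Finset (Fin n))} {c : ℝ} (f : (Fin n → ℝ) →ₗ[ℝ] ℝ)
    (h : ∀ B ∈ F, f (ev B) ≤ c) {x : Fin n → ℝ} (hx : x ∈ poly F) : f x ≤ c := by
  have : poly F ⊆ {y | f y ≤ c} := by
    apply convexHull_min
    · rintro _ ⟨B, hB, rfl⟩
      exact h B hB
    · exact convex_halfSpace_le f.isLinear c
  exact this hx

theorem sm_le {F : Finset (Finset (Fin n))} {S : Finset (Fin n)} {c : ℕ}
    (h : ∀ B ∈ F, (B ∩ S).card ≤ c) {x : Fin n → ℝ} (hx : x ∈ poly F) : sm S x ≤ c :=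
  lin_le (sm S) (fun B hB => by rw [sm_ev]; exact_mod_cast h B hB) hx

theorem le_sm {F : Finset (Finset (Fin n))} {S : Finset (Fin n)} {c : ℕ}
    (h : ∀ B ∈ F, c ≤ (B ∩ S).card) {x : Fin n → ℝ} (hx : x ∈ poly F) : (c : ℝ) ≤ sm S x := by
  have := lin_le (c := -(c : ℝ)) (-(sm S)) (fun B hB => by
    rw [LinearMap.neg_apply, sm_ev]
    have : (c : ℝ) ≤ (B ∩ S).card := by exact_mod_cast h B hB
    linarith) hx
  rw [LinearMap.neg_apply] at this
  linarith

/-- the functional separating `ev B` from the other 0/1 vectors -/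
noncomputable def sep (B : Finset (Fin n)) : (Fin n → ℝ) →ₗ[ℝ] ℝ := sm B - sm Bᶜ

theorem sep_self (B : Finset (Fin n)) : sep B (ev B) = B.card := by
  unfold sep
  rw [LinearMap.sub_apply, sm_ev, sm_ev]
  simp

theorem sep_le {B C : Finset (Fin n)} (h : C ≠ B) : sep B (ev C) ≤ (B.card : ℝ) - 1 := by
  unfold sep
  rw [LinearMap.sub_apply, sm_ev, sm_ev]
  have h1 : (C ∩ B).card ≤ B.card := Finset.card_le_card Finset.inter_subset_right
  by_cases h2 : C ⊆ B
  · have h3 : C ⊂ B := Finset.ssubset_iff_subset_ne.2 ⟨h2, h⟩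
    have h4 := Finset.card_lt_card h3
    have h5 : (C ∩ B).card ≤ C.card := Finset.card_le_card Finset.inter_subset_left
    have h6 : ((C ∩ B).card : ℝ) + 1 ≤ B.card := by exact_mod_cast (by omega : (C ∩ B).card + 1 ≤ B.card)
    have h7 : (0 : ℝ) ≤ (C ∩ Bᶜ).card := by positivity
    linarith
  · have h3 : 1 ≤ (C ∩ Bᶜ).card := by
      rw [Nat.one_le_iff_ne_zero, Ne, Finset.card_eq_zero]
      intro h4
      apply h2
      intro i hi
      by_contra hiB
      have : i ∈ C ∩ Bᶜ := by simp [hi, hiB]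
      rw [h4] at this
      simp at this
    have h4 : (1 : ℝ) ≤ (C ∩ Bᶜ).card := by exact_mod_cast h3
    have h5 : ((C ∩ B).card : ℝ) ≤ B.card := by exact_mod_cast h1
    linarith

theorem ev_mem_poly_iff {F : Finset (Finset (Fin n))} {B : Finset (Fin n)} :
    ev B ∈ poly F ↔ B ∈ F := by
  refine ⟨fun h => ?_, ev_mem_poly_of_mem⟩
  by_contra hB
  have := lin_le (c := (B.card : ℝ) - 1) (sep B) (fun C hC => sep_le (fun h => hB (h ▸ hC))) h
  rw [sep_self] at this
  linarith

theorem poly_subset_iff {F G : Finset (Finset (Fin n))} : poly F ⊆ poly G ↔ F ⊆ G := by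
  refine ⟨fun h B hB => ?_, poly_mono⟩
  exact ev_mem_poly_iff.1 (h (ev_mem_poly_of_mem hB))

/-- weights of points in an extreme set -/
theorem ext_weight {A E : Set (Fin n → ℝ)} (hA : Convex ℝ A) (hE : IsExtreme ℝ A E)
    {p q x : Fin n → ℝ} (hp : p ∈ A) (hq : q ∈ A) {a : ℝ} (ha : 0 < a) (ha1 : a ≤ 1)
    (hx : x = a • p + (1 - a) • q) (hxE : x ∈ E) : p ∈ E := by
  rcases eq_or_lt_of_le ha1 with h | h
  · subst h
    have : x = p := by rw [hx]; simp
    rwa [← this]
  · have : x ∈ openSegment ℝ p q := ⟨a, 1 - a, ha, by linarith, by ring, hx.symm⟩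
    exact (hE.2 hp hq hxE this)

end Pool.Agent.Q145.MS
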