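import Mathlib.Data.Nat.Bitwise

set_option autoImplicit false

/-! Certificate for the rigidity of a matroid on nine elements. -/

namespace Pool.Agent.Q145.MS

/-- proof trees -/
inductive Tr
  | ex (m1 m2 x : ℕ)
  | rk (S r : ℕ)
  | sp (m : ℕ) (t f : Tr)

/-- the codes of the bases -/
def V : List ℕ := [19, 35, 67, 131, 259, 21, 37, 69, 133, 261, 25, 41, 73, 137, 265, 145, 273, 161, 289, 193, 321, 22, 38, 70, 134, 262, 26, 42, 74, 138, 266, 50, 82, 274, 98, 162, 194, 322, 386, 28, 44, 76, 140, 268, 52, 84, 148, 100, 164, 292, 324, 388, 56, 88, 152, 280, 104, 296, 200, 392, 176, 304, 208, 336, 400, 224, 352, 416, 448]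

/-- the codes below 512 which are not codes of bases -/
def neg0 : ℕ := 13407807929942597098847186273741006315794906574250058471510345206508551988818921825405130591381030087998946470996838943023648930650021940390496280834998271

/-- number of ones among the first nine binary digits -/
def pc (a : ℕ) : ℕ :=
  (if a.testBit 0 then 1 else 0) + (if a.testBit 1 then 1 else 0) + (if a.testBit 2 then 1 else 0) +
  (if a.testBit 3 then 1 else 0) + (if a.testBit 4 then 1 else 0) + (if a.testBit 5 then 1 else 0) +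
  (if a.testBit 6 then 1 else 0) + (if a.testBit 7 then 1 else 0) + (if a.testBit 8 then 1 else 0)

/-- the checker -/
def chk : Tr → ℕ → ℕ → Bool
  | .ex m1 m2 x, pos, neg => pos.testBit m1 && (pos.testBit m2 && (m1.testBit x &&
      (!(m2.testBit x) && (decide (x < 9) && (List.range 9).all (fun y =>
        !(m2.testBit y) || (m1.testBit y || neg.testBit (m1 ^^^ 2 ^ x ^^^ 2 ^ y)))))))
  | .rk S r, _, neg => decide (3 * (r - 1) < pc S) && V.all (fun m =>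
      decide (pc (m &&& S) < r) || neg.testBit m)
  | .sp m t f, pos, neg => chk t (pos ||| 2 ^ m) neg && chk f pos (neg ||| 2 ^ m)

/-- check a list of certificates -/
def chkAll : List (ℕ × Tr) → ℕ → Bool
  | [], _ => true
  | (m, t) :: rest, pos => chk t pos (neg0 ||| 2 ^ m) && chkAll rest (pos ||| 2 ^ m)

def tr0 : Tr := (.sp 131 (.sp 21 (.ex 131 21 7) (.sp 25 (.ex 131 25 7) (.sp 22 (.ex 131 22 7) (.sp 26 (.ex 131 26 7) (.sp 28 (.ex 131 28 7) (.sp 50 (.ex 50 131 5) (.sp 82 (.ex 82 131 6) (.sp 274 (.ex 274 131 8) (.sp 145 (.sp 35 (.ex 145 35 7) (.sp 67 (.ex 145 67 7) (.sp 37 (.ex 145 37 7) (.sp 69 (.ex 145 69 7) (.sp 41 (.ex 145 41 7) (.sp 73 (.ex 145 73 7) (.sp 38 (.ex 145 38 7) (.sp 70 (.ex 145 70 7) (.sp 42 (.ex 145 42 7) (.sp 74 (.ex 145 74 7) (.sp 98 (.ex 145 98 7) (.sp 44 (.ex 145 44 7) (.sp 76 (.ex 145 76 7) (.sp 52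 (.ex 145 52 7) (.sp 84 (.ex 145 84 7) (.sp 100 (.ex 145 100 7) (.sp 56 (.ex 145 56 7) (.sp 88 (.ex 145 88 7) (.sp 104 (.ex 145 104 7) (.rk 127 3)))))))))))))))))))) (.sp 273 (.ex 131 273 1) (.sp 400 (.ex 131 400 1) (.sp 148 (.ex 148 131 2) (.sp 152 (.ex 152 131 3) (.sp 176 (.ex 176 131 5) (.sp 208 (.ex 208 131 6) (.sp 280 (.ex 280 131 3) (.sp 304 (.ex 304 131 5) (.sp 336 (.ex 336 131 6) (.sp 52 (.ex 52 131 5) (.sp 84 (.ex 84 131 6) (.sp 56 (.ex 56 131 5) (.sp 88 (.ex 88 131 6) (.rk 16 1))))))))))))))))))))))) (.sp 145 (.sp 35 (.ex 35 145 5) (.sp 67 (.ex 67 145 6) (.sp 259 (.ex 259 145 8) (.sp 50 (.ex 145 50 7) (.sp 82 (.ex 145 82 7) (.sp 98 (.ex 145 98 7) (.sp 386 (.ex 145 386 4) (.sp 22 (.ex 22 145 2) (.sp 134 (.ex 134 145 2) (.sp 262 (.ex 262 145 8) (.sp 26 (.ex 26 145 3) (.sp 138 (.ex 138 145 3) (.sp 266 (.ex 266 145 8) (.sp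 274 (.ex 274 145 8) (.sp 162 (.ex 162 145 5) (.sp 194 (.ex 194 145 6) (.sp 322 (.ex 322 145 6) (.sp 38 (.ex 38 145 2) (.sp 42 (.ex 42 145 3) (.sp 70 (.ex 70 145 2) (.sp 74 (.ex 74 145 3) (.rk 2 1)))))))))))))))))))))) (.sp 259 (.sp 21 (.ex 259 21 8) (.sp 133 (.ex 259 133 8) (.sp 25 (.ex 259 25 8) (.sp 137 (.ex 259 137 8) (.sp 22 (.ex 259 22 8) (.sp 134 (.ex 259 134 8) (.sp 26 (.ex 259 26 8) (.sp 138 (.ex 259 138 8) (.sp 28 (.ex 259 28 8) (.sp 140 (.ex 259 140 8) (.sp 148 (.ex 259 148 8) (.sp 152 (.ex 259 152 8) (.sp 161 (.ex 161 259 5) (.sp 193 (.ex 193 259 6) (.sp 52 (.ex 52 259 5) (.sp 84 (.ex 84 259 6) (.sp 35 (.sp 176 (.ex 35 176 1) (.sp 208 (.ex 35 208 1) (.sp 273 (.ex 273 35 8) (.sp 400 (.ex 400 35 8) (.sp 37 (.sp 50 (.ex 50 37 1) (.sp 82 (.ex 82 37 1) (.sp 274 (.ex 274 37 8) (.sp 56 (.ex 56 37 3) (.sp 88 (.ex 88 37 3) (.sp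 280 (.ex 280 37 8) (.sp 304 (.ex 304 37 8) (.sp 336 (.ex 336 37 6) (.rk 16 1))))))))) (.sp 69 (.ex 35 69 1) (.sp 164 (.ex 35 164 1) (.sp 261 (.ex 261 35 8) (.sp 388 (.ex 388 35 8) (.rk 149 2)))))))))) (.sp 37 (.ex 259 37 8) (.sp 41 (.ex 259 41 8) (.sp 38 (.ex 259 38 8) (.sp 42 (.ex 259 42 8) (.sp 50 (.ex 259 50 8) (.sp 162 (.ex 259 162 8) (.sp 44 (.ex 259 44 8) (.sp 164 (.ex 259 164 8) (.sp 56 (.ex 259 56 8) (.sp 176 (.ex 259 176 8) (.rk 191 3)))))))))))))))))))))))))))) (.sp 35 (.sp 21 (.ex 35 21 5) (.sp 133 (.ex 35 133 5) (.sp 261 (.ex 35 261 5) (.sp 25 (.ex 35 25 5) (.sp 137 (.ex 35 137 5) (.sp 265 (.ex 35 265 5) (.sp 273 (.ex 35 273 5) (.sp 22 (.ex 35 22 5) (.sp 134 (.ex 35 134 5) (.sp 262 (.ex 35 262 5) (.sp 26 (.ex 35 26 5) (.sp 138 (.ex 35 138 5) (.sp 266 (.ex 35 266 5) (.sp 274 (.ex 35 274 5) (.sp 386 (.ex 35 386 5) (.sp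 28 (.ex 35 28 5) (.sp 140 (.ex 35 140 5) (.sp 268 (.ex 35 268 5) (.sp 148 (.ex 35 148 5) (.sp 388 (.ex 35 388 5) (.sp 152 (.ex 35 152 5) (.sp 280 (.ex 35 280 5) (.sp 392 (.ex 35 392 5) (.sp 400 (.ex 35 400 5) (.rk 415 3))))))))))))))))))))))))) (.sp 67 (.sp 21 (.ex 67 21 6) (.sp 37 (.ex 67 37 6) (.sp 133 (.ex 67 133 6) (.sp 25 (.ex 67 25 6) (.sp 41 (.ex 67 41 6) (.sp 137 (.ex 67 137 6) (.sp 161 (.ex 67 161 6) (.sp 22 (.ex 67 22 6) (.sp 38 (.ex 67 38 6) (.sp 134 (.ex 67 134 6) (.sp 26 (.ex 67 26 6) (.sp 42 (.ex 67 42 6) (.sp 138 (.ex 67 138 6) (.sp 50 (.ex 67 50 6) (.sp 162 (.ex 67 162 6) (.sp 28 (.ex 67 28 6) (.sp 44 (.ex 67 44 6) (.sp 140 (.ex 67 140 6) (.sp 52 (.ex 67 52 6) (.sp 148 (.ex 67 148 6) (.sp 164 (.ex 67 164 6) (.sp 56 (.ex 67 56 6) (.sp 152 (.ex 67 152 6) (.sp 176 (.ex 67 176 6) (.rk 191 3)))))))))))))))))))))))))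 (.sp 289 (.sp 50 (.ex 289 50 8) (.sp 82 (.ex 289 82 8) (.sp 98 (.ex 289 98 8) (.sp 386 (.ex 289 386 5) (.sp 38 (.ex 38 289 2) (.sp 262 (.ex 262 289 2) (.sp 42 (.ex 42 289 3) (.sp 266 (.ex 266 289 3) (.sp 274 (.ex 274 289 4) (.sp 162 (.ex 162 289 7) (.sp 194 (.ex 194 289 6) (.sp 322 (.ex 322 289 6) (.sp 22 (.ex 22 289 2) (.sp 26 (.ex 26 289 3) (.sp 70 (.ex 70 289 2) (.sp 74 (.ex 74 289 3) (.sp 134 (.ex 134 289 2) (.sp 138 (.ex 138 289 3) (.rk 2 1))))))))))))))))))) (.sp 273 (.sp 37 (.ex 37 273 2) (.sp 133 (.ex 133 273 2) (.sp 41 (.ex 41 273 3) (.sp 137 (.ex 137 273 3) (.sp 161 (.ex 273 161 4) (.sp 193 (.ex 273 193 8) (.sp 50 (.ex 273 50 8) (.sp 98 (.ex 273 98 8) (.sp 162 (.ex 273 162 4) (.sp 194 (.ex 273 194 8) (.sp 386 (.ex 273 386 4) (.sp 176 (.ex 273 176 8) (.sp 224 (.ex 273 224 8) (.sp 416 (.ex 273 416 4) (.sp 38 (.ex 38 273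 2) (.sp 134 (.ex 134 273 2) (.sp 42 (.ex 42 273 3) (.sp 138 (.ex 138 273 3) (.sp 164 (.ex 164 273 2) (.rk 163 2)))))))))))))))))))) (.sp 21 (.sp 161 (.ex 21 161 2) (.sp 193 (.ex 21 193 2) (.sp 321 (.ex 21 321 2) (.sp 50 (.ex 21 50 2) (.sp 82 (.ex 21 82 2) (.sp 274 (.ex 21 274 2) (.sp 98 (.ex 21 98 2) (.sp 162 (.ex 21 162 2) (.sp 194 (.ex 21 194 2) (.sp 322 (.ex 21 322 2) (.sp 386 (.ex 21 386 2) (.sp 176 (.ex 21 176 2) (.sp 304 (.ex 21 304 2) (.sp 208 (.ex 21 208 2) (.sp 336 (.ex 21 336 2) (.sp 400 (.ex 21 400 2) (.sp 224 (.ex 21 224 2) (.sp 352 (.ex 21 352 2) (.sp 416 (.ex 21 416 2) (.sp 448 (.ex 21 448 2) (.rk 499 3))))))))))))))))))))) (.sp 261 (.sp 25 (.ex 261 25 8) (.sp 22 (.ex 261 22 8) (.sp 26 (.ex 261 26 8) (.sp 50 (.ex 261 50 2) (.sp 274 (.ex 261 274 2) (.sp 28 (.ex 261 28 8) (.sp 176 (.ex 261 176 2) (.sp 304 (.ex 261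 304 2) (.sp 400 (.ex 261 400 2) (.sp 82 (.ex 82 261 6) (.sp 52 (.ex 52 261 5) (.sp 84 (.ex 84 261 6) (.sp 148 (.ex 148 261 7) (.sp 56 (.ex 56 261 3) (.sp 152 (.ex 152 261 3) (.sp 280 (.ex 280 261 3) (.sp 208 (.ex 208 261 6) (.sp 336 (.ex 336 261 6) (.sp 88 (.ex 88 261 6) (.rk 16 1)))))))))))))))))))) (.sp 37 (.sp 25 (.ex 37 25 5) (.sp 265 (.ex 37 265 5) (.sp 321 (.ex 37 321 2) (.sp 22 (.ex 37 22 5) (.sp 262 (.ex 37 262 5) (.sp 26 (.ex 37 26 5) (.sp 266 (.ex 37 266 5) (.sp 50 (.ex 37 50 2) (.sp 82 (.ex 37 82 2) (.sp 274 (.ex 37 274 2) (.sp 322 (.ex 37 322 2) (.sp 280 (.ex 37 280 5) (.sp 304 (.ex 37 304 2) (.sp 336 (.ex 37 336 2) (.sp 386 (.ex 386 37 7) (.sp 400 (.ex 400 37 7) (.rk 275 2))))))))))))))))) (.sp 69 (.sp 25 (.ex 69 25 6) (.sp 41 (.ex 69 41 6) (.sp 22 (.ex 69 22 6) (.sp 38 (.ex 69 38 6) (.sp 26 (.ex 69 26 6) (.sp 42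 (.ex 69 42 6) (.sp 50 (.ex 69 50 2) (.sp 82 (.ex 69 82 2) (.sp 274 (.ex 69 274 6) (.sp 98 (.ex 69 98 2) (.sp 52 (.ex 69 52 6) (.sp 56 (.ex 69 56 6) (.sp 304 (.ex 69 304 6) (.sp 161 (.ex 161 69 7) (.sp 162 (.ex 162 69 7) (.sp 176 (.ex 176 69 7) (.rk 51 2))))))))))))))))) (.sp 133 (.sp 25 (.ex 133 25 7) (.sp 265 (.ex 133 265 7) (.sp 321 (.ex 133 321 7) (.sp 22 (.ex 133 22 7) (.sp 262 (.ex 133 262 7) (.sp 26 (.ex 133 26 7) (.sp 266 (.ex 133 266 7) (.sp 50 (.ex 133 50 7) (.sp 82 (.ex 133 82 7) (.sp 274 (.ex 133 274 2) (.sp 322 (.ex 133 322 7) (.sp 386 (.ex 133 386 2) (.sp 280 (.ex 133 280 7) (.sp 304 (.ex 133 304 7) (.sp 336 (.ex 133 336 7) (.sp 400 (.ex 133 400 2) (.rk 275 2))))))))))))))))) (.sp 25 (.sp 161 (.ex 25 161 3) (.sp 193 (.ex 25 193 3) (.sp 22 (.ex 25 22 3) (.sp 38 (.ex 25 38 3) (.sp 70 (.ex 25 70 3) (.sp 134 (.ex 25 134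 3) (.sp 50 (.ex 25 50 3) (.sp 82 (.ex 25 82 3) (.sp 98 (.ex 25 98 3) (.sp 162 (.ex 25 162 3) (.sp 194 (.ex 25 194 3) (.sp 52 (.ex 25 52 3) (.sp 84 (.ex 25 84 3) (.sp 148 (.ex 25 148 3) (.sp 100 (.ex 25 100 3) (.sp 164 (.ex 25 164 3) (.sp 176 (.ex 25 176 3) (.sp 208 (.ex 25 208 3) (.sp 224 (.ex 25 224 3) (.rk 247 3)))))))))))))))))))) (.sp 41 (.sp 321 (.ex 41 321 3) (.sp 22 (.ex 41 22 3) (.sp 38 (.ex 41 38 3) (.sp 70 (.ex 41 70 3) (.sp 262 (.ex 41 262 3) (.sp 50 (.ex 41 50 3) (.sp 82 (.ex 41 82 3) (.sp 274 (.ex 41 274 3) (.sp 98 (.ex 41 98 3) (.sp 322 (.ex 41 322 3) (.sp 52 (.ex 41 52 3) (.sp 84 (.ex 41 84 3) (.sp 100 (.ex 41 100 3) (.sp 292 (.ex 41 292 3) (.sp 324 (.ex 41 324 3) (.sp 304 (.ex 41 304 3) (.sp 336 (.ex 41 336 3) (.sp 352 (.ex 41 352 3) (.rk 375 3))))))))))))))))))) (.sp 73 (.sp 22 (.ex 73 22 3) (.sp 38 (.ex 73 38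 3) (.sp 70 (.ex 73 70 3) (.sp 26 (.ex 73 26 6) (.sp 50 (.ex 73 50 3) (.sp 82 (.ex 73 82 3) (.sp 28 (.ex 73 28 6) (.sp 52 (.ex 73 52 3) (.sp 84 (.ex 73 84 3) (.sp 134 (.ex 134 73 7) (.sp 262 (.ex 262 73 8) (.sp 274 (.ex 274 73 8) (.sp 148 (.ex 148 73 7) (.rk 23 2)))))))))))))) (.sp 137 (.sp 22 (.ex 137 22 3) (.sp 38 (.ex 137 38 7) (.sp 70 (.ex 137 70 7) (.sp 134 (.ex 137 134 3) (.sp 262 (.ex 137 262 3) (.sp 26 (.ex 137 26 7) (.sp 50 (.ex 137 50 7) (.sp 82 (.ex 137 82 7) (.sp 274 (.ex 137 274 3) (.sp 28 (.ex 137 28 7) (.sp 52 (.ex 137 52 7) (.sp 84 (.ex 137 84 7) (.sp 148 (.ex 137 148 3) (.rk 23 2)))))))))))))) (.sp 265 (.sp 161 (.ex 265 161 3) (.sp 22 (.ex 265 22 3) (.sp 38 (.ex 265 38 3) (.sp 70 (.ex 265 70 8) (.sp 134 (.ex 265 134 3) (.sp 262 (.ex 265 262 3) (.sp 42 (.ex 265 42 8) (.sp 50 (.ex 265 50 3) (.sp 98 (.ex 265 98 8)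 (.sp 162 (.ex 265 162 3) (.sp 44 (.ex 265 44 8) (.sp 52 (.ex 265 52 3) (.sp 100 (.ex 265 100 8) (.sp 164 (.ex 265 164 3) (.sp 292 (.ex 265 292 3) (.rk 39 2)))))))))))))))) (.sp 161 (.sp 321 (.ex 161 321 7) (.sp 22 (.ex 161 22 5) (.sp 38 (.ex 161 38 7) (.sp 70 (.ex 161 70 7) (.sp 134 (.ex 161 134 5) (.sp 262 (.ex 161 262 5) (.sp 266 (.ex 161 266 5) (.sp 274 (.ex 161 274 5) (.sp 322 (.ex 161 322 7) (.sp 386 (.ex 161 386 5) (.sp 268 (.ex 161 268 5) (.sp 292 (.ex 161 292 7) (.sp 324 (.ex 161 324 7) (.sp 388 (.ex 161 388 5) (.rk 263 2))))))))))))))) (.sp 193 (.sp 22 (.ex 193 22 6) (.sp 38 (.ex 193 38 6) (.sp 70 (.ex 193 70 7) (.sp 134 (.ex 193 134 6) (.sp 262 (.ex 193 262 6) (.sp 28 (.ex 193 28 6) (.sp 44 (.ex 193 44 6) (.sp 76 (.ex 193 76 7) (.sp 140 (.ex 193 140 6) (.sp 268 (.ex 193 268 6) (.sp 52 (.ex 193 52 6) (.sp 84 (.ex 193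 84 7) (.sp 148 (.ex 193 148 6) (.sp 100 (.ex 193 100 7) (.sp 164 (.ex 193 164 6) (.sp 292 (.ex 193 292 6) (.sp 388 (.ex 193 388 6) (.sp 324 (.ex 324 193 8) (.rk 4 1))))))))))))))))))) (.sp 321 (.sp 22 (.ex 321 22 6) (.sp 38 (.ex 321 38 6) (.sp 70 (.ex 321 70 8) (.sp 134 (.ex 321 134 6) (.sp 262 (.ex 321 262 6) (.sp 26 (.ex 321 26 6) (.sp 42 (.ex 321 42 6) (.sp 74 (.ex 321 74 8) (.sp 138 (.ex 321 138 6) (.sp 266 (.ex 321 266 6) (.sp 28 (.ex 321 28 6) (.sp 44 (.ex 321 44 6) (.sp 76 (.ex 321 76 8) (.sp 140 (.ex 321 140 6) (.sp 268 (.ex 321 268 6) (.rk 15 2)))))))))))))))) (.rk 1 1)))))))))))))))))))))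

def tr1 : Tr := (.sp 37 (.ex 19 37 4) (.sp 41 (.ex 19 41 4) (.sp 38 (.ex 19 38 4) (.sp 42 (.ex 19 42 4) (.sp 44 (.ex 19 44 4) (.sp 161 (.ex 161 19 7) (.sp 289 (.ex 289 19 8) (.sp 50 (.sp 259 (.ex 50 259 4) (.sp 261 (.ex 50 261 4) (.sp 265 (.ex 50 265 4) (.sp 262 (.ex 50 262 4) (.sp 266 (.ex 50 266 4) (.sp 268 (.ex 50 268 4) (.sp 292 (.ex 50 292 4) (.sp 296 (.ex 50 296 4) (.sp 388 (.ex 388 50 7) (.sp 131 (.sp 162 (.sp 416 (.ex 131 416 1) (.sp 273 (.ex 273 131 4) (.sp 321 (.ex 321 131 6) (.sp 56 (.ex 56 131 4) (.sp 104 (.ex 104 131 6) (.sp 304 (.ex 304 131 4) (.sp 352 (.ex 352 131 6) (.sp 137 (.ex 162 137 1) (.sp 392 (.ex 162 392 1) (.sp 280 (.ex 280 162 4) (.sp 25 (.ex 50 25 1) (.sp 73 (.ex 50 73 1) (.rk 297 2))))))))))))) (.ex 131 50 0)) (.sp 133 (.ex 19 133 4) (.sp 137 (.ex 19 137 4) (.sp 134 (.ex 19 134 4) (.sp 138 (.ex 19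 138 4) (.sp 162 (.ex 19 162 4) (.sp 386 (.ex 19 386 4) (.sp 140 (.ex 19 140 4) (.sp 164 (.ex 19 164 4) (.sp 392 (.ex 19 392 4) (.sp 416 (.ex 19 416 4) (.rk 431 3))))))))))))))))))))) (.sp 162 (.ex 19 162 0) (.sp 176 (.ex 19 176 0) (.sp 98 (.ex 98 19 6) (.sp 52 (.ex 52 19 2) (.sp 56 (.ex 56 19 3) (.sp 304 (.ex 304 19 8) (.sp 164 (.ex 164 19 2) (.sp 224 (.ex 224 19 6) (.sp 416 (.ex 416 19 8) (.sp 100 (.ex 100 19 2) (.sp 104 (.ex 104 19 3) (.sp 352 (.ex 352 19 8) (.sp 292 (.ex 292 19 8) (.sp 296 (.ex 296 19 8) (.rk 32 1)))))))))))))))))))))))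

def tr2 : Tr := (.sp 133 (.ex 19 133 4) (.sp 137 (.ex 19 137 4) (.sp 134 (.ex 19 134 4) (.sp 138 (.ex 19 138 4) (.sp 140 (.ex 19 140 4) (.sp 162 (.ex 162 19 5) (.sp 194 (.ex 194 19 6) (.sp 386 (.ex 386 19 8) (.sp 152 (.ex 152 35 4) (.sp 200 (.ex 200 19 6) (.sp 392 (.ex 392 19 8) (.sp 416 (.ex 35 416 0) (.sp 388 (.ex 388 35 2) (.sp 400 (.ex 400 35 4) (.sp 448 (.ex 448 19 6) (.sp 145 (.sp 259 (.ex 145 259 4) (.sp 265 (.ex 145 265 4) (.sp 262 (.ex 145 262 4) (.sp 26 (.ex 145 26 0) (.sp 266 (.ex 145 266 0) (.sp 274 (.ex 145 274 0) (.sp 268 (.ex 145 268 4) (.sp 280 (.ex 145 280 0) (.sp 42 (.ex 42 145 5) (.sp 74 (.ex 74 145 6) (.sp 322 (.ex 322 145 6) (.sp 296 (.ex 296 145 5) (.rk 394 2))))))))))))) (.sp 161 (.ex 19 161 1) (.sp 193 (.ex 19 193 1) (.sp 176 (.ex 19 176 1) (.sp 208 (.ex 19 208 1) (.sp 224 (.ex 19 224 1) (.sp 148 (.ex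 148 19 2) (.sp 164 (.ex 164 19 2) (.rk 128 1))))))))))))))))))))))))

def tr3 : Tr := (.sp 261 (.ex 19 261 4) (.sp 265 (.ex 19 265 4) (.sp 262 (.ex 19 262 4) (.sp 266 (.ex 19 266 4) (.sp 268 (.ex 19 268 4) (.sp 273 (.ex 273 131 4) (.sp 289 (.ex 289 19 5) (.sp 321 (.ex 321 19 6) (.sp 274 (.ex 274 35 4) (.sp 322 (.ex 322 19 6) (.sp 386 (.ex 386 19 7) (.sp 292 (.ex 292 19 5) (.sp 324 (.ex 324 19 6) (.sp 388 (.ex 388 19 7) (.sp 280 (.ex 280 19 3) (.sp 296 (.ex 296 19 5) (.sp 392 (.ex 392 19 7) (.sp 304 (.ex 304 19 5) (.sp 336 (.ex 336 19 6) (.sp 400 (.ex 400 19 7) (.sp 352 (.ex 352 19 5) (.sp 416 (.ex 416 19 5) (.sp 448 (.ex 448 19 6) (.rk 256 1))))))))))))))))))))))))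

def tr4 : Tr := (.sp 69 (.ex 19 69 4) (.sp 73 (.ex 19 73 4) (.sp 70 (.ex 19 70 4) (.sp 74 (.ex 19 74 4) (.sp 76 (.ex 19 76 4) (.sp 193 (.ex 193 19 7) (.sp 321 (.ex 321 19 8) (.sp 84 (.ex 84 131 4) (.sp 100 (.ex 100 19 5) (.sp 324 (.ex 324 19 8) (.sp 88 (.ex 88 259 4) (.sp 104 (.ex 104 19 5) (.sp 200 (.ex 200 19 7) (.sp 448 (.ex 131 448 1) (.sp 82 (.sp 194 (.sp 21 (.ex 82 21 1) (.sp 37 (.ex 82 37 1) (.sp 25 (.ex 82 25 1) (.sp 41 (.ex 82 41 1) (.sp 28 (.ex 82 28 1) (.sp 44 (.ex 82 44 1) (.sp 140 (.ex 140 82 7) (.sp 268 (.ex 268 82 8) (.sp 133 (.ex 194 133 1) (.sp 261 (.ex 194 261 1) (.sp 137 (.ex 194 137 1) (.sp 265 (.ex 194 265 1) (.rk 77 2))))))))))))) (.ex 131 82 0)) (.sp 194 (.ex 19 194 0) (.sp 208 (.ex 19 208 0) (.sp 98 (.ex 98 19 5) (.sp 322 (.ex 322 19 8) (.sp 336 (.ex 336 19 8) (.sp 224 (.ex 224 19 5) (.sp 352 (.ex 35 352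 0) (.rk 64 1)))))))))))))))))))))))

def tr5 : Tr := (.sp 161 (.ex 19 161 1) (.sp 193 (.ex 19 193 1) (.sp 176 (.ex 19 176 1) (.sp 208 (.ex 19 208 1) (.sp 224 (.ex 19 224 1) (.sp 273 (.ex 131 273 1) (.sp 289 (.ex 131 289 1) (.sp 321 (.ex 131 321 1) (.sp 304 (.ex 131 304 1) (.sp 336 (.ex 131 336 1) (.sp 400 (.ex 131 400 1) (.sp 352 (.ex 131 352 1) (.sp 416 (.ex 131 416 1) (.sp 448 (.ex 131 448 1) (.sp 148 (.ex 148 19 2) (.sp 292 (.ex 292 19 2) (.sp 152 (.ex 152 19 3) (.sp 296 (.ex 296 19 3) (.sp 21 (.sp 261 (.sp 388 (.ex 21 388 0) (.sp 274 (.ex 274 21 1) (.sp 386 (.ex 386 21 1) (.sp 280 (.ex 280 21 3) (.sp 392 (.ex 392 21 3) (.sp 52 (.ex 261 52 0) (.sp 164 (.ex 261 164 0) (.sp 50 (.ex 50 261 1) (.sp 162 (.ex 162 261 1) (.sp 56 (.ex 56 261 3) (.rk 432 2))))))))))) (.ex 259 21 1)) (.sp 37 (.ex 19 37 1) (.sp 69 (.ex 19 69 1) (.sp 133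 (.ex 19 133 1) (.sp 261 (.ex 19 261 1) (.sp 52 (.ex 19 52 1) (.sp 84 (.ex 19 84 1) (.sp 100 (.ex 19 100 1) (.sp 164 (.ex 19 164 1) (.sp 324 (.ex 19 324 1) (.sp 388 (.ex 19 388 1) (.rk 501 3))))))))))))))))))))))))))))))

def tr6 : Tr := (.sp 193 (.ex 35 193 1) (.ex 67 145 1))

def tr7 : Tr := (.sp 289 (.ex 19 289 1) (.ex 259 161 1))

def tr8 : Tr := (.sp 321 (.ex 35 321 1) (.ex 67 273 1))

def tr9 : Tr := (.sp 321 (.ex 131 321 1) (.ex 67 273 1))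

def tr10 : Tr := (.sp 37 (.ex 19 37 1) (.sp 69 (.ex 19 69 1) (.sp 52 (.ex 19 52 1) (.sp 84 (.ex 19 84 1) (.sp 100 (.ex 19 100 1) (.sp 133 (.ex 133 19 7) (.sp 261 (.ex 261 19 8) (.sp 388 (.ex 145 388 4) (.sp 22 (.ex 22 273 1) (.sp 38 (.ex 38 19 5) (.sp 70 (.ex 70 19 6) (.sp 134 (.ex 134 19 7) (.sp 262 (.ex 262 19 8) (.sp 28 (.ex 28 19 3) (.sp 44 (.ex 44 19 3) (.sp 76 (.ex 76 19 3) (.sp 140 (.ex 140 19 7) (.sp 268 (.ex 268 19 3) (.sp 148 (.ex 148 19 7) (.sp 164 (.ex 164 19 5) (.sp 292 (.ex 292 19 5) (.sp 324 (.ex 324 19 6) (.rk 4 1)))))))))))))))))))))))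

def tr11 : Tr := (.sp 69 (.ex 35 69 1) (.ex 67 21 1))

def tr12 : Tr := (.sp 321 (.ex 321 21 8) (.ex 67 273 1))

def tr13 : Tr := (.sp 261 (.ex 131 261 1) (.ex 21 259 4))

def tr14 : Tr := (.sp 321 (.ex 321 133 6) (.ex 67 273 1))

def tr15 : Tr := (.sp 41 (.ex 19 41 1) (.sp 73 (.ex 19 73 1) (.sp 56 (.ex 19 56 1) (.sp 88 (.ex 19 88 1) (.sp 104 (.ex 19 104 1) (.sp 137 (.ex 137 19 7) (.sp 265 (.ex 265 19 8) (.sp 392 (.ex 145 392 4) (.sp 42 (.ex 42 145 1) (.sp 74 (.ex 74 35 6) (.sp 138 (.ex 138 35 7) (.sp 266 (.ex 266 35 8) (.sp 44 (.ex 44 19 2) (.sp 76 (.ex 76 19 2) (.sp 140 (.ex 140 35 2) (.sp 268 (.ex 268 35 8) (.sp 152 (.ex 152 35 4) (.sp 280 (.ex 280 67 4) (.sp 296 (.ex 296 19 5) (.sp 200 (.ex 200 19 6) (.sp 26 (.ex 26 161 1) (.sp 28 (.ex 28 35 2) (.rk 8 1)))))))))))))))))))))))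

def tr16 : Tr := (.sp 73 (.ex 35 73 1) (.ex 67 25 1))

def tr17 : Tr := (.sp 321 (.ex 321 25 8) (.ex 67 273 1))

def tr18 : Tr := (.sp 265 (.ex 131 265 1) (.ex 25 259 4))

def tr19 : Tr := (.sp 321 (.ex 321 137 6) (.ex 67 273 1))

def tr20 : Tr := (.sp 262 (.ex 35 262 0) (.sp 292 (.ex 35 292 0) (.sp 22 (.ex 261 22 0) (.sp 50 (.ex 261 50 0) (.sp 274 (.ex 261 274 0) (.sp 52 (.ex 261 52 0) (.sp 304 (.ex 261 304 0) (.sp 70 (.ex 70 19 6) (.sp 134 (.ex 134 19 7) (.sp 176 (.ex 176 19 7) (.sp 148 (.ex 19 148 0) (.sp 164 (.ex 19 164 0) (.sp 388 (.ex 19 388 0) (.sp 162 (.ex 21 162 0) (.sp 386 (.ex 21 386 0) (.sp 416 (.ex 19 416 0) (.sp 400 (.ex 35 400 0) (.sp 194 (.ex 69 194 0) (.sp 84 (.ex 131 84 0) (.sp 100 (.ex 131 100 0) (.sp 324 (.ex 131 324 0) (.sp 82 (.ex 133 82 0) (.sp 98 (.ex 133 98 0) (.sp 322 (.ex 133 322 0) (.sp 208 (.ex 21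 208 0) (.sp 224 (.ex 21 224 0) (.sp 448 (.ex 21 448 0) (.sp 336 (.ex 133 336 0) (.sp 352 (.ex 133 352 0) (.rk 502 3))))))))))))))))))))))))))))))

def tr21 : Tr := (.sp 274 (.ex 131 274 0) (.sp 262 (.sp 22 (.ex 273 22 0) (.ex 21 262 0)) (.ex 259 38 0)))

def tr22 : Tr := (.sp 274 (.ex 261 274 0) (.ex 19 386 0))

def tr23 : Tr := (.sp 274 (.ex 289 274 0) (.ex 19 386 0))

def tr24 : Tr := (.sp 22 (.ex 273 22 0) (.ex 19 262 0))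

def tr25 : Tr := (.sp 50 (.ex 131 50 0) (.ex 35 274 0))

def tr26 : Tr := (.sp 22 (.ex 22 162 2) (.ex 19 38 0))

def tr27 : Tr := (.sp 22 (.ex 22 304 1) (.ex 21 38 0))

def tr28 : Tr := (.sp 321 (.ex 386 321 1) (.ex 67 273 1))

def tr29 : Tr := (.sp 324 (.ex 324 52 6) (.ex 69 448 0))

def tr30 : Tr := (.sp 336 (.ex 67 336 1) (.sp 324 (.ex 273 324 0) (.ex 69 448 0)))

def tr31 : Tr := (.sp 22 (.sp 134 (.ex 69 134 0) (.ex 131 22 0)) (.ex 21 262 0))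

def tr32 : Tr := (.sp 22 (.ex 145 22 0) (.ex 21 262 0))

def tr33 : Tr := (.sp 22 (.ex 131 22 0) (.ex 19 148 0))

def tr34 : Tr := (.sp 82 (.ex 82 134 6) (.ex 19 70 0))

def tr35 : Tr := (.sp 84 (.ex 261 84 0) (.ex 69 148 0))

def tr36 : Tr := (.sp 336 (.ex 21 336 0) (.ex 273 324 0))

def tr37 : Tr := (.sp 164 (.ex 164 324 5) (.ex 133 292 0))

def tr38 : Tr := (.sp 138 (.ex 19 138 0) (.sp 42 (.ex 137 42 0) (.ex 41 162 0)))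

def tr39 : Tr := (.sp 138 (.ex 138 67 7) (.ex 131 26 0))

def tr40 : Tr := (.sp 194 (.ex 194 26 6) (.ex 131 74 0))

def tr41 : Tr := (.sp 42 (.ex 289 42 0) (.ex 41 138 0))

def tr42 : Tr := (.sp 98 (.ex 98 296 6) (.ex 35 74 0))

def tr43 : Tr := (.sp 322 (.ex 265 322 0) (.ex 259 74 0))

def tr44 : Tr := (.sp 152 (.ex 41 152 0) (.ex 145 26 0))

def tr45 : Tr := (.sp 200 (.ex 200 56 6) (.ex 73 448 0))

def tr46 : Tr := (.sp 200 (.ex 41 200 0) (.ex 73 448 0))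

def tr47 : Tr := (.sp 200 (.ex 265 200 0) (.ex 73 448 0))

def tr48 : Tr := (.sp 400 (.ex 400 50 8) (.ex 145 274 0))

def tr49 : Tr := (.sp 208 (.ex 208 274 6) (.ex 145 448 0))

def tr50 : Tr := (.sp 194 (.ex 19 194 0) (.sp 208 (.ex 19 208 0) (.ex 193 22 0)))

def tr51 : Tr := (.sp 208 (.ex 131 208 0) (.ex 145 82 0))

def tr52 : Tr := (.sp 200 (.ex 200 84 3) (.ex 73 392 0))

def tr53 : Tr := (.sp 322 (.ex 35 322 0) (.sp 352 (.ex 35 352 0) (.ex 321 42 0)))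

def tr54 : Tr := (.sp 352 (.ex 259 352 0) (.ex 289 98 0))

def tr55 : Tr := (.sp 100 (.ex 133 100 0) (.ex 98 21 1))

def tr56 : Tr := (.sp 100 (.ex 193 100 0) (.ex 69 164 0))

def tr57 : Tr := (.sp 76 (.ex 193 76 0) (.ex 73 324 0))

def tr58 : Tr := (.sp 76 (.ex 76 35 6) (.ex 69 200 0))

def tr59 : Tr := (.sp 100 (.ex 100 200 5) (.ex 69 44 0))

def tr60 : Tr := (.sp 268 (.ex 21 268 0) (.ex 265 76 0))

def tr61 : Tr := (.sp 268 (.ex 268 131 8) (.ex 261 28 0))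

def tr62 : Tr := (.sp 280 (.ex 261 280 0) (.ex 265 28 0))

def tr63 : Tr := (.sp 352 (.ex 352 21 8) (.ex 289 98 0))

def tr64 : Tr := (.sp 280 (.ex 73 280 0) (.ex 273 28 0))

def tr65 : Tr := (.sp 336 (.ex 265 336 0) (.ex 273 76 0))

def tr66 : Tr := (.sp 352 (.ex 82 352 1) (.ex 289 98 0))

def tr67 : Tr := (.sp 416 (.ex 416 98 7) (.ex 161 296 0))

def tr68 : Tr := (.ex 161 296 0)

/-- all certificates -/
def certs : List (ℕ × Tr) := [(19, tr0), (35, tr1), (131, tr2), (259, tr3), (67, tr4), (145, tr5), (161, tr6), (273, tr7), (289, tr8), (193, tr9), (21, tr10), (37, tr11), (69, tr12), (133, tr13), (261, tr14), (25, tr15), (41, tr16), (73, tr17), (137, tr18), (265, tr19), (38, tr20), (386, tr21), (262, tr22), (304, tr23), (274, tr24), (162, tr25), (50, tr26), (52, tr27), (448, tr28), (292, tr29), (321, tr30), (70, tr31), (148,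 tr32), (134, tr33), (22, tr34), (324, tr35), (84, tr36), (388, tr37), (26, tr38), (74, tr39), (138, tr40), (296, tr41), (42, tr42), (266, tr43), (56, tr44), (152, tr45), (104, tr46), (392, tr47), (176, tr48), (400, tr49), (82, tr50), (194, tr51), (208, tr52), (98, tr53), (322, tr54), (164, tr55), (224, tr56), (200, tr57), (44, tr58), (76, tr59), (28, tr60), (140, tr61), (268, tr62), (100, tr63), (88, tr64), (280, tr65), (336, tr66), (352, tr67), (416, tr68)]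

theorem chkAll_certs : chkAll certs 0 = true := by decide +kernel

theorem certs_fst : certs.map Prod.fst = [19, 35, 131, 259, 67, 145, 161, 273, 289, 193, 21, 37, 69, 133, 261, 25, 41, 73, 137, 265, 38, 386, 262, 304, 274, 162, 50, 52, 448, 292, 321, 70, 148, 134, 22, 324, 84, 388, 26, 74, 138, 296, 42, 266, 56, 152, 104, 392, 176, 400, 82, 194, 208, 98, 322, 164, 224, 200, 44, 76, 28, 140, 268, 100, 88, 280, 336, 352, 416] := rfl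

theorem V_subset : ∀ m ∈ V, m ∈ certs.map Prod.fst := by decide +kernel

end Pool.Agent.Q145.MS
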