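import Pool.Agent.Q145.MS.Faces

set_option autoImplicit false

namespace Pool.Agent.Q145.MS

open Set

variable {n : ℕ}

theorem IsFace.trans {P F G : Set (Fin n → ℝ)} (h : IsFace P F) (h' : IsFace F G) : IsFace P G :=
  ⟨h'.1, h'.2.1, h.2.2.trans h'.2.2⟩

theorem IsFace.mono {P Q F : Set (Fin n → ℝ)} (h : IsFace P F) (hQ : Q ⊆ P) (hF : F ⊆ Q) :
    IsFace Q F := ⟨h.1, h.2.1, h.2.2.mono hQ hF⟩

theorem cell_eq {P : Set (Fin n → ℝ)} {K : Set (Set (Fin n → ℝ))}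
    (hK : IsMatroidSubdivision P K) {C : Set (Fin n → ℝ)} (hC : C ∈ K) :
    ∃ F : Finset (Finset (Fin n)), IsMat F ∧ C = poly F := by
  obtain ⟨N, hN, rfl⟩ := hK.isMatroidPolytope C hC
  exact ⟨bases N, ⟨N, hN, rfl⟩, matroidPolytope_eq N⟩

theorem IsMat.nonempty {F : Finset (Finset (Fin n))} (hF : IsMat F) : F.Nonempty := by
  obtain ⟨N, hN, rfl⟩ := hF
  obtain ⟨B, hB⟩ := N.exists_isBase
  refine ⟨B.toFinite.toFinset, ?_⟩
  rw [mem_bases]
  simpa using hB

theorem poly_nonempty {F : Finset (Finset (Fin n))} (hF : F.Nonempty) : (poly F).Nonempty := by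
  obtain ⟨B, hB⟩ := hF
  exact ⟨_, ev_mem_poly_of_mem hB⟩

theorem cell_nonempty {P : Set (Fin n → ℝ)} {K : Set (Set (Fin n → ℝ))}
    (hK : IsMatroidSubdivision P K) {C : Set (Fin n → ℝ)} (hC : C ∈ K) : C.Nonempty := by
  obtain ⟨F, hF, rfl⟩ := cell_eq hK hC
  exact poly_nonempty hF.nonempty

/-- a subdivision from its maximal cells -/
theorem build {ι : Type*} (F : ι → Finset (Finset (Fin n))) (G : Finset (Finset (Fin n)))
    (hmat : ∀ i, IsMat (F i)) (hsub : ∀ i, F i ⊆ G)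
    (hcov : ∀ x ∈ poly G, ∃ i, x ∈ poly (F i))
    (hint : ∀ i j, (poly (F i) ∩ poly (F j)).Nonempty →
      IsExtreme ℝ (poly (F i)) (poly (F i) ∩ poly (F j))) :
    IsMatroidSubdivision (poly G) {E | ∃ i, IsFace (poly (F i)) E} := by
  have ext_aux : ∀ i j E E', IsFace (poly (F i)) E → IsFace (poly (F j)) E' →
      (E ∩ E').Nonempty → IsFace E (E ∩ E') := by
    intro i j E E' hE hE' hne
    have hEi : E ⊆ poly (F i) := hE.2.2.1
    have hEj : E' ⊆ poly (F j) := hE'.2.2.1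
    have hG : (poly (F i) ∩ poly (F j)).Nonempty := hne.mono (inter_subset_inter hEi hEj)
    have hGi := hint i j hG
    have hGj := hint j i (by rwa [inter_comm] at hG)
    rw [inter_comm (poly (F j))] at hGj
    have e1 : IsExtreme ℝ (poly (F i)) (E ∩ (poly (F i) ∩ poly (F j))) := hE.2.2.inter hGi
    have e2 : IsExtreme ℝ (poly (F j)) (E' ∩ (poly (F i) ∩ poly (F j))) := hE'.2.2.inter hGj
    have e3 : IsExtreme ℝ (poly (F i) ∩ poly (F j)) (E' ∩ (poly (F i) ∩ poly (F j))) :=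
      e2.mono inter_subset_right inter_subset_right
    have e4 := hGi.trans e3
    have e5 := e1.inter e4
    have e6 : E ∩ (poly (F i) ∩ poly (F j)) ∩ (E' ∩ (poly (F i) ∩ poly (F j))) = E ∩ E' := by
      apply Subset.antisymm
      · rintro x ⟨⟨h1, _⟩, h2, _⟩; exact ⟨h1, h2⟩
      · rintro x ⟨h1, h2⟩
        exact ⟨⟨h1, hEi h1, hEj h2⟩, h2, hEi h1, hEj h2⟩
    rw [e6] at e5
    exact ⟨hne, hE.2.1.inter hE'.2.1, e5.mono hEi inter_subset_left⟩
  refine ⟨?_, ?_, ?_, ?_, ?_, ?_⟩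
  · apply (finite_range (poly (n := n))).subset
    rintro E ⟨i, hE⟩
    exact ⟨_, (face_eq_poly hE).symm⟩
  · rintro E ⟨i, hE⟩
    rw [face_eq_poly hE]
    exact isMatroidPolytope_poly (face_isMat (hmat i) hE)
  · rintro E ⟨i, hE⟩ E' hE'
    exact ⟨i, hE.trans hE'⟩
  · rintro E ⟨i, hE⟩ E' ⟨j, hE'⟩ hne
    refine ⟨ext_aux i j E E' hE hE' hne, ?_⟩
    rw [inter_comm]
    exact ext_aux j i E' E hE' hE (by rwa [inter_comm])
  · apply Subset.antisymm
    · rintro x ⟨E, ⟨i, hE⟩, hx⟩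
      exact poly_mono (hsub i) (hE.2.2.1 hx)
    · intro x hx
      obtain ⟨i, hi⟩ := hcov x hx
      exact ⟨poly (F i), ⟨i, ⟨x, hi⟩, convex_poly _, IsExtreme.refl ℝ _⟩, hi⟩
  · rintro E ⟨i, hE⟩
    rw [face_eq_poly hE, extremePoints_poly, extremePoints_poly]
    apply image_mono
    intro B hB
    exact hsub i (mem_vin.1 hB).1

theorem Refines.refl (K : Set (Set (Fin n → ℝ))) : Refines K K := fun C hC => ⟨C, hC, le_refl _⟩

theorem Refines.trans {K K' K'' : Set (Set (Fin n → ℝ))} (h : Refines K K') (h' : Refines K' K'') :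
    Refines K K'' := by
  intro C hC
  obtain ⟨D, hD, hCD⟩ := h C hC
  obtain ⟨E, hE, hDE⟩ := h' D hD
  exact ⟨E, hE, hCD.trans hDE⟩

theorem Refines.subset {P : Set (Fin n → ℝ)} {K K' : Set (Set (Fin n → ℝ))}
    (hK : IsMatroidSubdivision P K) (hK' : IsMatroidSubdivision P K')
    (h : Refines K K') (h' : Refines K' K) : K ⊆ K' := by
  intro C hC
  obtain ⟨D', hD', hCD'⟩ := h C hC
  obtain ⟨D, hD, hD'D⟩ := h' D' hD'
  have hne := cell_nonempty hK hC
  have hCD : C ∩ D = C := inter_eq_left.2 (hCD'.trans hD'D)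
  have := (hK.inter C hC D hD (by rw [hCD]; exact hne)).2
  rw [hCD] at this
  exact hK'.face_mem D' hD' C (this.mono hD'D hCD')

theorem Refines.antisymm {P : Set (Fin n → ℝ)} {K K' : Set (Set (Fin n → ℝ))}
    (hK : IsMatroidSubdivision P K) (hK' : IsMatroidSubdivision P K')
    (h : Refines K K') (h' : Refines K' K) : K = K' :=
  Subset.antisymm (Refines.subset hK hK' h h') (Refines.subset hK' hK h' h)

theorem finite_subdivisions (P : Set (Fin n → ℝ)) : {K | IsMatroidSubdivision P K}.Finite := by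
  apply (finite_range (poly (n := n))).finite_subsets.subset
  intro K hK C hC
  obtain ⟨F, _, rfl⟩ := cell_eq hK hC
  exact ⟨F, rfl⟩

theorem exists_finest {P : Set (Fin n → ℝ)} {K0 : Set (Set (Fin n → ℝ))}
    (hK0 : IsMatroidSubdivision P K0) : ∃ K, IsFinest P K ∧ Refines K K0 := by
  let T := {K : Set (Set (Fin n → ℝ)) // IsMatroidSubdivision P K ∧ Refines K K0}
  haveI : Finite T := by
    have h : {K : Set (Set (Fin n → ℝ)) | IsMatroidSubdivision P K ∧ Refines K K0}.Finite :=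
      (finite_subdivisions P).subset (fun K hK => hK.1)
    exact h.to_subtype
  let r : T → T → Prop := fun a b => Refines a.1 b.1 ∧ a ≠ b
  haveI : IsTrans T r := ⟨by
    rintro a b c ⟨h1, h2⟩ ⟨h3, h4⟩
    refine ⟨h1.trans h3, ?_⟩
    rintro rfl
    exact h2 (Subtype.ext (Refines.antisymm a.2.1 b.2.1 h1 h3))⟩
  haveI : Std.Irrefl r := ⟨fun a h => h.2 rfl⟩
  have hwf : WellFounded r := Finite.wellFounded_of_trans_of_irrefl r
  obtain ⟨m, _, hm⟩ := hwf.has_min univ ⟨⟨K0, hK0, Refines.refl _⟩, mem_univ _⟩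
  refine ⟨m.1, ⟨m.2.1, ?_⟩, m.2.2⟩
  intro K' hK' hr
  by_contra hne
  exact hm ⟨K', hK', hr.trans m.2.2⟩ (mem_univ _) ⟨hr, fun h => hne (congrArg Subtype.val h)⟩

/-- every cell lies in a maximal cell -/
theorem exists_maximal {P : Set (Fin n → ℝ)} {K : Set (Set (Fin n → ℝ))}
    (hK : IsMatroidSubdivision P K) {C : Set (Fin n → ℝ)} (hC : C ∈ K) :
    ∃ D, IsMaximalCell K D ∧ C ⊆ D := by
  obtain ⟨D, ⟨hD1, hD2⟩⟩ := hK.finite.exists_le_maximal hC
  refine ⟨D, ⟨hD2.prop, fun E hE hDE => ?_⟩, hD1⟩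
  exact (hD2.eq_of_le hE hDE).symm

end Pool.Agent.Q145.MS
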