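import Mathlib

set_option autoImplicit false

/-! Matroid polytopes, matroid subdivisions and hypersimplices. -/

namespace Pool.Agent.Q145.MS

open Set

variable {n : ℕ}

/-- The 0/1 vector `e_B` of a subset `B` of `[n]`. -/
noncomputable def vec (B : Set (Fin n)) : Fin n → ℝ := B.indicator 1

/-- The polytope of a matroid on `[n]`: the convex hull of the vectors of its bases. -/
def matroidPolytope (M : Matroid (Fin n)) : Set (Fin n → ℝ) :=
  convexHull ℝ {v | ∃ B, M.IsBase B ∧ v = vec B}

/-- The hypersimplex `Δ(k,n)`. -/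
def hypersimplex (k n : ℕ) : Set (Fin n → ℝ) :=
  convexHull ℝ {v | ∃ B : Set (Fin n), B.ncard = k ∧ v = vec B}

/-- Nonempty faces of a polytope: nonempty convex extreme subsets. -/
def IsFace (P F : Set (Fin n → ℝ)) : Prop :=
  F.Nonempty ∧ Convex ℝ F ∧ IsExtreme ℝ P F

/-- `K` (the set of all nonempty cells) is a matroid subdivision of the polytope `P`: a finite
polytopal complex with union `P`, every cell of which is a matroid polytope, all of whose vertices
are vertices of `P`. -/
structure IsMatroidSubdivision (P : Set (Fin n → ℝ)) (K : Set (Set (Fin n → ℝ))) : Prop where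
  finite : K.Finite
  isMatroidPolytope : ∀ C ∈ K, ∃ N : Matroid (Fin n), N.E = univ ∧ C = matroidPolytope N
  face_mem : ∀ C ∈ K, ∀ F, IsFace C F → F ∈ K
  inter : ∀ C ∈ K, ∀ D ∈ K, (C ∩ D).Nonempty → IsFace C (C ∩ D) ∧ IsFace D (C ∩ D)
  cover : ⋃₀ K = P
  vertices : ∀ C ∈ K, extremePoints ℝ C ⊆ extremePoints ℝ P

/-- Every cell of `K'` lies in a cell of `K`. -/
def Refines (K' K : Set (Set (Fin n → ℝ))) : Prop := ∀ C ∈ K', ∃ D ∈ K, C ⊆ D

/-- A matroid subdivision is finest if no other matroid subdivision of the same polytope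
refines it. -/
def IsFinest (P : Set (Fin n → ℝ)) (K : Set (Set (Fin n → ℝ))) : Prop :=
  IsMatroidSubdivision P K ∧ ∀ K', IsMatroidSubdivision P K' → Refines K' K → K' = K

/-- The maximal cells of a subdivision. -/
def IsMaximalCell (K : Set (Set (Fin n → ℝ))) (C : Set (Fin n → ℝ)) : Prop :=
  C ∈ K ∧ ∀ D ∈ K, C ⊆ D → D = C

/-- A matroid is indecomposable if the only matroid subdivision of its polytope is the trivial
one, consisting of the polytope and its faces. -/
def Indecomposable (M : Matroid (Fin n)) : Prop :=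
  ∀ K, IsMatroidSubdivision (matroidPolytope M) K → K = {F | IsFace (matroidPolytope M) F}

end Pool.Agent.Q145.MS
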