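import Pool.Agent.Q145.MS.Basic

set_option autoImplicit false

namespace Pool.Agent.Q145.MS

open Set

variable {n : ℕ}

/-- symmetric exchange -/
theorem symm_exchange {α : Type*} (M : Matroid α) {B1 B2 : Set α} (h1 : M.IsBase B1)
    (h2 : M.IsBase B2) {x : α} (hx : x ∈ B1 \ B2) :
    ∃ y ∈ B2 \ B1, M.IsBase (insert y (B1 \ {x})) ∧ M.IsBase (insert x (B2 \ {y})) := by
  have hxE : x ∈ M.E := h1.subset_ground hx.1
  have hC := h2.fundCircuit_isCircuit hxE hx.2
  have hxC : x ∈ M.fundCircuit x B2 := M.mem_fundCircuit x B2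
  have hxcl : x ∈ M.closure (M.fundCircuit x B2 \ {x}) :=
    (hC.sdiff_singleton_isBasis hxC).subset_closure hxC
  have hnot : ¬ (M.fundCircuit x B2 \ {x} ⊆ M.closure (B1 \ {x})) := by
    intro hsub
    have h3 : M.closure (M.fundCircuit x B2 \ {x}) ⊆ M.closure (B1 \ {x}) :=
      M.closure_subset_closure_of_subset_closure hsub
    have h4 : x ∈ M.closure (B1 \ {x}) := h3 hxcl
    exact h1.indep.notMem_closure_sdiff_of_mem hx.1 h4
  obtain ⟨y, hyC, hycl⟩ := not_subset.1 hnot
  have hyB2 : y ∈ B2 := by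
    have := M.fundCircuit_subset_insert x B2 hyC.1
    rcases this with h | h
    · exact absurd h hyC.2
    · exact h
  have hyx : y ≠ x := hyC.2
  have hyE : y ∈ M.E := h2.subset_ground hyB2
  have hyB1 : y ∉ B1 := by
    intro h
    exact hycl (M.mem_closure_of_mem ⟨h, hyx⟩ (sdiff_subset.trans h1.subset_ground))
  refine ⟨y, ⟨hyB2, hyB1⟩, h1.exchange_base_of_notMem_closure hx.1 hycl hyE, ?_⟩
  have hind : M.Indep (insert x B2 \ {y}) := by
    rw [← h2.indep.mem_fundCircuit_iff (by rw [h2.closure_eq]; exact hxE) hx.2]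
    exact hyC.1
  have := h2.exchange_isBase_of_indep' hyB2 hx.2 hind
  rwa [insert_sdiff_singleton_comm (fun h => hyx h.symm)]

/-- symmetric exchange in terms of finsets -/
theorem symm_exchange' (N : Matroid (Fin n)) {A B : Finset (Fin n)} (hA : A ∈ bases N)
    (hB : B ∈ bases N) {x : Fin n} (hx : x ∈ A) (hx' : x ∉ B) :
    ∃ y, y ∈ B ∧ y ∉ A ∧ insert y (A.erase x) ∈ bases N ∧ insert x (B.erase y) ∈ bases N := by
  obtain ⟨y, hy, h1, h2⟩ := symm_exchange N (mem_bases.1 hA) (mem_bases.1 hB)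
    (x := x) ⟨by simpa using hx, by simpa using hx'⟩
  refine ⟨y, by simpa using hy.1, by simpa using hy.2, ?_, ?_⟩
  · rw [mem_bases]; push_cast; exact h1
  · rw [mem_bases]; push_cast; exact h2

theorem ev_exchange {A B : Finset (Fin n)} {x y : Fin n} (hxA : x ∈ A) (hxB : x ∉ B)
    (hyB : y ∈ B) (hyA : y ∉ A) :
    ev A + ev B = ev (insert y (A.erase x)) + ev (insert x (B.erase y)) := by
  have hxy : x ≠ y := fun h => hxB (h ▸ hyB)
  funext i
  simp only [Pi.add_apply, ev]
  by_cases hix : i = x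
  · subst hix
    simp [hxA, hxB, hxy]
  · by_cases hiy : i = y
    · subst hiy
      simp [hyA, hyB, hix]
    · by_cases hA : i ∈ A <;> by_cases hB : i ∈ B <;> simp [hA, hB, hix, hiy]

/-- points with positive weight of a point of an extreme set are in the extreme set -/
theorem ev_mem_of_weight {F : Finset (Finset (Fin n))} {E : Set (Fin n → ℝ)}
    (hE : IsExtreme ℝ (poly F) E) {w : Finset (Fin n) → ℝ} (h0 : ∀ B, 0 ≤ w B)
    (h1 : ∑ B ∈ F, w B = 1) (hx : ∑ B ∈ F, w B • ev B ∈ E) {A : Finset (Fin n)} (hA : A ∈ F)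
    (hw : 0 < w A) : ev A ∈ E := by
  classical
  have hsum : w A + ∑ B ∈ F.erase A, w B = 1 := by
    rw [Finset.add_sum_erase F w hA]; exact h1
  have hs2 : w A • ev A + ∑ B ∈ F.erase A, w B • ev B = ∑ B ∈ F, w B • ev B :=
    Finset.add_sum_erase F (fun B => w B • ev B) hA
  have hle : w A ≤ 1 := by
    have : 0 ≤ ∑ B ∈ F.erase A, w B := Finset.sum_nonneg (fun B _ => h0 B)
    linarith
  rcases eq_or_lt_of_le hle with h | h
  · have hz : ∀ B ∈ F.erase A, w B = 0 := by
      have h3 : ∑ B ∈ F.erase A, w B = 0 := by linarith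
      exact (Finset.sum_eq_zero_iff_of_nonneg (fun B _ => h0 B)).1 h3
    have h4 : ∑ B ∈ F.erase A, w B • ev B = 0 :=
      Finset.sum_eq_zero (fun B hB => by rw [hz B hB, zero_smul])
    rw [← hs2, h4, h, one_smul, add_zero] at hx
    exact hx
  · have hpos : 0 < 1 - w A := by linarith
    have hq : ∑ B ∈ F.erase A, (w B / (1 - w A)) • ev B ∈ poly F := by
      apply (convex_poly F).sum_mem
      · intro B _; exact div_nonneg (h0 B) hpos.le
      · rw [← Finset.sum_div, div_eq_one_iff_eq hpos.ne']; linarith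
      · intro B hB; exact ev_mem_poly_of_mem (Finset.mem_of_mem_erase hB)
    refine ext_weight (convex_poly F) hE (ev_mem_poly_of_mem hA) hq hw hle ?_ hx
    rw [← hs2, Finset.smul_sum]
    congr 1
    refine Finset.sum_congr rfl (fun B _ => ?_)
    rw [smul_smul, mul_div_cancel₀ _ hpos.ne']

open Classical in
/-- vertices of a family in a set -/
noncomputable def vin (F : Finset (Finset (Fin n))) (E : Set (Fin n → ℝ)) :
    Finset (Finset (Fin n)) := F.filter (fun B => ev B ∈ E)

theorem mem_vin {F : Finset (Finset (Fin n))} {E : Set (Fin n → ℝ)} {B : Finset (Fin n)} :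
    B ∈ vin F E ↔ B ∈ F ∧ ev B ∈ E := by
  simp [vin]

theorem face_eq_poly {F : Finset (Finset (Fin n))} {E : Set (Fin n → ℝ)}
    (hE : IsFace (poly F) E) : E = poly (vin F E) := by
  apply Subset.antisymm
  · intro x hx
    obtain ⟨w, h0, h1, h2, h3⟩ := mem_poly.1 (hE.2.2.1 hx)
    rw [mem_poly]
    have key : ∀ B ∈ F, B ∉ vin F E → w B = 0 := by
      intro B hB hn
      by_contra hne
      exact hn (mem_vin.2 ⟨hB, ev_mem_of_weight hE.2.2 h0 h2 (h3 ▸ hx) hB
        (lt_of_le_of_ne (h0 B) (Ne.symm hne))⟩)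
    refine ⟨w, h0, ?_, ?_, ?_⟩
    · intro B hB
      by_cases hF : B ∈ F
      · exact key B hF hB
      · exact h1 B hF
    · rw [← h2]
      apply Finset.sum_subset (fun B hB => (mem_vin.1 hB).1)
      intro B hB hn; exact key B hB hn
    · rw [← h3]
      apply Finset.sum_subset (fun B hB => (mem_vin.1 hB).1)
      intro B hB hn; rw [key B hB hn, zero_smul]
  · apply convexHull_min _ hE.2.1
    rintro _ ⟨B, hB, rfl⟩
    exact (mem_vin.1 (Finset.mem_coe.1 hB)).2

/-- a family of finsets is the family of bases of a matroid -/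
def IsMat (F : Finset (Finset (Fin n))) : Prop :=
  ∃ N : Matroid (Fin n), N.E = univ ∧ bases N = F

theorem isMat_of_exchange {F : Finset (Finset (Fin n))} (hne : F.Nonempty)
    (hex : ∀ A ∈ F, ∀ B ∈ F, ∀ x ∈ A, x ∉ B → ∃ y, y ∈ B ∧ y ∉ A ∧ insert y (A.erase x) ∈ F) :
    IsMat F := by
  let P : Set (Fin n) → Prop := fun S => ∃ B ∈ F, (B : Set (Fin n)) = S
  have hexP : Matroid.ExchangeProperty P := by
    rintro _ _ ⟨A, hA, rfl⟩ ⟨B, hB, rfl⟩ a ⟨ha, ha'⟩
    obtain ⟨y, hy, hy', hins⟩ := hex A hA B hB a (by simpa using ha) (by simpa using ha')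
    exact ⟨y, ⟨by simpa using hy, by simpa using hy'⟩, _, hins, by push_cast; rfl⟩
  obtain ⟨B0, hB0⟩ := hne
  refine ⟨Matroid.ofIsBaseOfFinite (E := univ) finite_univ P ⟨_, B0, hB0, rfl⟩ hexP
    (fun B _ => subset_univ _), rfl, ?_⟩
  ext B
  rw [mem_bases]
  constructor
  · rintro ⟨C, hC, hCB⟩
    rwa [← Finset.coe_injective hCB]
  · intro hB
    exact ⟨B, hB, rfl⟩

theorem IsMat.symm {F : Finset (Finset (Fin n))} (hF : IsMat F) {A B : Finset (Fin n)}
    (hA : A ∈ F) (hB : B ∈ F) {x : Fin n} (hx : x ∈ A) (hx' : x ∉ B) :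
    ∃ y, y ∈ B ∧ y ∉ A ∧ insert y (A.erase x) ∈ F ∧ insert x (B.erase y) ∈ F := by
  obtain ⟨N, _, rfl⟩ := hF
  exact symm_exchange' N hA hB hx hx'

/-- faces of matroid polytopes are matroid polytopes -/
theorem face_isMat {F : Finset (Finset (Fin n))} (hF : IsMat F) {E : Set (Fin n → ℝ)}
    (hE : IsFace (poly F) E) : IsMat (vin F E) := by
  apply isMat_of_exchange
  · obtain ⟨x, hx⟩ := hE.1
    rw [face_eq_poly hE] at hx
    by_contra hne
    rw [Finset.not_nonempty_iff_eq_empty] at hne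
    rw [hne] at hx
    simp [poly] at hx
  · intro A hA B hB x hxA hxB
    obtain ⟨hA1, hA2⟩ := mem_vin.1 hA
    obtain ⟨hB1, hB2⟩ := mem_vin.1 hB
    obtain ⟨y, hyB, hyA, h1, h2⟩ := hF.symm hA1 hB1 hxA hxB
    refine ⟨y, hyB, hyA, mem_vin.2 ⟨h1, ?_⟩⟩
    have hmid : (1 / 2 : ℝ) • ev A + (1 / 2 : ℝ) • ev B ∈ E :=
      hE.2.1 hA2 hB2 (by norm_num) (by norm_num) (by norm_num)
    refine ext_weight (convex_poly F) hE.2.2 (ev_mem_poly_of_mem h1) (ev_mem_poly_of_mem h2)
      (a := 1 / 2) (by norm_num) (by norm_num) ?_ hmid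
    rw [← smul_add, ev_exchange hxA hxB hyB hyA, smul_add]
    norm_num

theorem isMatroidPolytope_poly {F : Finset (Finset (Fin n))} (hF : IsMat F) :
    ∃ N : Matroid (Fin n), N.E = univ ∧ poly F = matroidPolytope N := by
  obtain ⟨N, hN, rfl⟩ := hF
  exact ⟨N, hN, (matroidPolytope_eq N).symm⟩

/-- vertices of `poly F` -/
theorem extremePoints_poly (F : Finset (Finset (Fin n))) :
    extremePoints ℝ (poly F) = ev '' (F : Set (Finset (Fin n))) := by
  apply Subset.antisymm
  · exact extremePoints_convexHull_subset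
  · rintro _ ⟨B, hB, rfl⟩
    rw [mem_extremePoints]
    refine ⟨ev_mem_poly_of_mem hB, ?_⟩
    have hle : ∀ x ∈ poly F, ∀ i, 0 ≤ x i ∧ x i ≤ 1 := by
      intro x hx i
      have h1 : sm {i} x ≤ ((1 : ℕ) : ℝ) := sm_le (fun C _ => by
        calc (C ∩ {i}).card ≤ ({i} : Finset (Fin n)).card :=
              Finset.card_le_card Finset.inter_subset_right
          _ = 1 := by simp) hx
      have h2 : ((0 : ℕ) : ℝ) ≤ sm {i} x := le_sm (fun C _ => Nat.zero_le _) hx
      rw [sm_apply] at h1 h2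
      simpa using And.intro h2 h1
    intro x hx y hy hxy
    obtain ⟨a, b, ha, hb, hab, h⟩ := hxy
    have key : ∀ i, x i = ev B i ∧ y i = ev B i := by
      intro i
      have hi := congrFun h i
      simp only [Pi.add_apply, Pi.smul_apply, smul_eq_mul] at hi
      have hx1 := hle x hx i
      have hy1 := hle y hy i
      unfold ev at hi ⊢
      by_cases hiB : i ∈ B
      · simp only [hiB, if_true] at hi ⊢
        constructor
        · by_contra hne
          have : x i < 1 := lt_of_le_of_ne hx1.2 hne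
          nlinarith
        · by_contra hne
          have : y i < 1 := lt_of_le_of_ne hy1.2 hne
          nlinarith
      · simp only [hiB, if_false] at hi ⊢
        constructor
        · by_contra hne
          have : 0 < x i := lt_of_le_of_ne hx1.1 (Ne.symm hne)
          nlinarith
        · by_contra hne
          have : 0 < y i := lt_of_le_of_ne hy1.1 (Ne.symm hne)
          nlinarith
    exact ⟨funext fun i => (key i).1, funext fun i => (key i).2⟩

end Pool.Agent.Q145.MS
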