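import Pool.Agent.Q145.MS.Rigid

set_option autoImplicit false

namespace Pool.Agent.Q145.MS

open Set

/-- the four point line -/
def L4 : Finset (Fin 9) := {0, 1, 2, 3}

/-- triples with exactly two points on the line -/
def E2 : Finset (Finset (Fin 9)) := (Tri 9).filter (fun B => (B ∩ L4).card = 2)

theorem mem_E2 {B : Finset (Fin 9)} : B ∈ E2 ↔ B.card = 3 ∧ (B ∩ L4).card = 2 := by
  simp [E2, mem_Tri, -Finset.mem_powersetCard]

theorem E2_sub_Mf : E2 ⊆ Mf lines := by decide +kernel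

theorem L4_mem : L4 ∈ lines := by decide +kernel

theorem E2_card : E2.card = 30 := by decide +kernel

theorem E2_count : ∀ i : Fin 9, (E2.filter (fun B => i ∈ B)).card = if i ∈ L4 then 15 else 6 := by
  decide +kernel

theorem lines_card : ∀ ℓ ∈ lines, ℓ.card ≤ 4 := by decide +kernel

theorem Qf_ne : ∀ ℓ ∈ lines, (Qf ℓ).Nonempty := by decide +kernel

theorem Mf_ne : (Mf lines).Nonempty := by decide +kernel

/-- the centre of the facet -/
noncomputable def z0 : Fin 9 → ℝ := fun i => if i ∈ L4 then 1 / 2 else 1 / 5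

noncomputable def y0 : Fin 9 → ℝ := fun i => if i ∈ L4 then 3 / 4 else 0

theorem z0_eq : z0 = ∑ B ∈ E2, (1 / 30 : ℝ) • ev B := by
  funext i
  rw [Finset.sum_apply]
  simp only [Pi.smul_apply, ev, smul_eq_mul, mul_ite, mul_one, mul_zero]
  rw [← Finset.sum_filter, Finset.sum_const, E2_count i]
  unfold z0
  split_ifs <;> norm_num

theorem z0_mem : z0 ∈ poly (Mf lines) := by
  rw [z0_eq]
  apply (convex_poly _).sum_mem
  · intro B _; norm_num
  · rw [Finset.sum_const, E2_card]; norm_num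
  · intro B hB; exact ev_mem_poly_of_mem (E2_sub_Mf hB)

theorem Mf_sub : Mf lines ⊆ Tri 9 := Finset.filter_subset _ _

theorem y0_eq : y0 = ∑ B ∈ Finset.powersetCard 3 L4, (1 / 4 : ℝ) • ev B := by
  have h : ∀ i : Fin 9, ((Finset.powersetCard 3 L4).filter (fun B => i ∈ B)).card
      = if i ∈ L4 then 3 else 0 := by decide +kernel
  funext i
  rw [Finset.sum_apply]
  simp only [Pi.smul_apply, ev, smul_eq_mul, mul_ite, mul_one, mul_zero]
  rw [← Finset.sum_filter, Finset.sum_const, h i]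
  unfold y0
  split_ifs <;> norm_num

theorem y0_mem : y0 ∈ poly (Tri 9) := by
  rw [y0_eq]
  apply (convex_poly _).sum_mem
  · intro B _; norm_num
  · have : (Finset.powersetCard 3 L4).card = 4 := by decide +kernel
    rw [Finset.sum_const, this]; norm_num
  · intro B hB
    rw [Finset.mem_powersetCard] at hB
    exact ev_mem_poly_of_mem (mem_Tri.2 hB.2)

theorem c0_mem : (fun _ => 1 / 3 : Fin 9 → ℝ) ∈ poly (Tri 9) := by
  have h : (fun _ => 1 / 3 : Fin 9 → ℝ) =
      ∑ B ∈ ({{0, 1, 2}, {3, 4, 5}, {6, 7, 8}} : Finset (Finset (Fin 9))), (1 / 3 : ℝ) • ev B := by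
    have h' : ∀ i : Fin 9, (({{0, 1, 2}, {3, 4, 5}, {6, 7, 8}} : Finset (Finset (Fin 9))).filter
        (fun B => i ∈ B)).card = 1 := by decide +kernel
    funext i
    rw [Finset.sum_apply]
    simp only [Pi.smul_apply, ev, smul_eq_mul, mul_ite, mul_one, mul_zero]
    rw [← Finset.sum_filter, Finset.sum_const, h' i]
    norm_num
  rw [h]
  apply (convex_poly _).sum_mem
  · intro B _; norm_num
  · have : ({{0, 1, 2}, {3, 4, 5}, {6, 7, 8}} : Finset (Finset (Fin 9))).card = 3 := by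
      decide +kernel
    rw [Finset.sum_const, this]; norm_num
  · intro B hB
    have : ∀ B ∈ ({{0, 1, 2}, {3, 4, 5}, {6, 7, 8}} : Finset (Finset (Fin 9))), B ∈ Tri 9 := by
      decide +kernel
    exact ev_mem_poly_of_mem (this B hB)

/-- merge `S` into one class, and the points off the line into one class -/
def κ1 (S : Finset (Fin 9)) (r : Fin 5) (i : Fin 9) : Fin 5 :=
  if i ∈ S then r else if i = 0 then 0 else if i = 1 then 1 else if i = 2 then 2
    else if i = 3 then 3 else 4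

theorem split_of {N : Finset (Finset (Fin 9))} (hN : IsMat N) (S : Finset (Fin 9)) (r : Fin 5)
    (ℒ : Finset (Finset (Fin 5))) (hS : S.card = 2)
    (h1 : N.filter (fun B => (B ∩ S).card ≤ 1) = Fam (κ1 S r) ∅)
    (h2 : N.filter (fun B => 1 ≤ (B ∩ S).card) = Fam (κ1 ∅ r) ℒ)
    (hℒ : ∀ ℓ ∈ ℒ, ∀ m ∈ ℒ, ℓ ≠ m → (ℓ ∩ m).card ≤ 1)
    (n1 : (Fam (κ1 S r) ∅).Nonempty) (n2 : (Fam (κ1 ∅ r) ℒ).Nonempty)
    (hlow : ∃ B ∈ N, (B ∩ S).card = 0) (hhigh : ∃ B ∈ N, (B ∩ S).card = 2) :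
    ∃ K, IsMatroidSubdivision (poly N) K ∧ poly N ∉ K := by
  apply split_subdivision hN hS _ _ hlow hhigh
  · rw [h1]; exact isMat_Fam _ _ (by simp) n1
  · rw [h2]; exact isMat_Fam _ _ hℒ n2

theorem case_all : ∃ K, IsMatroidSubdivision (poly (Qf L4)) K ∧ poly (Qf L4) ∉ K :=
  split_of (isMat_Qf L4 (by decide +kernel)) {0, 1} 0 {{2, 3, 4}} (by decide +kernel)
    (by decide +kernel) (by decide +kernel) (by decide +kernel) (by decide +kernel)
    (by decide +kernel) (by decide +kernel) (by decide +kernel)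

theorem case0 (h : IsMat ((Qf L4).erase (L4.erase 0))) :
    ∃ K, IsMatroidSubdivision (poly ((Qf L4).erase (L4.erase 0))) K ∧
      poly ((Qf L4).erase (L4.erase 0)) ∉ K :=
  split_of h {1, 2} 1 {{0, 3, 4}, {1, 2, 3}} (by decide +kernel)
    (by decide +kernel) (by decide +kernel) (by decide +kernel) (by decide +kernel)
    (by decide +kernel) (by decide +kernel) (by decide +kernel)

theorem case1 (h : IsMat ((Qf L4).erase (L4.erase 1))) :
    ∃ K, IsMatroidSubdivision (poly ((Qf L4).erase (L4.erase 1))) K ∧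
      poly ((Qf L4).erase (L4.erase 1)) ∉ K :=
  split_of h {0, 2} 0 {{1, 3, 4}, {0, 2, 3}} (by decide +kernel)
    (by decide +kernel) (by decide +kernel) (by decide +kernel) (by decide +kernel)
    (by decide +kernel) (by decide +kernel) (by decide +kernel)

theorem case2 (h : IsMat ((Qf L4).erase (L4.erase 2))) :
    ∃ K, IsMatroidSubdivision (poly ((Qf L4).erase (L4.erase 2))) K ∧
      poly ((Qf L4).erase (L4.erase 2)) ∉ K :=
  split_of h {0, 1} 0 {{2, 3, 4}, {0, 1, 3}} (by decide +kernel)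
    (by decide +kernel) (by decide +kernel) (by decide +kernel) (by decide +kernel)
    (by decide +kernel) (by decide +kernel) (by decide +kernel)

theorem case3 (h : IsMat ((Qf L4).erase (L4.erase 3))) :
    ∃ K, IsMatroidSubdivision (poly ((Qf L4).erase (L4.erase 3))) K ∧
      poly ((Qf L4).erase (L4.erase 3)) ∉ K :=
  split_of h {0, 1} 0 {{2, 3, 4}, {0, 1, 2}} (by decide +kernel)
    (by decide +kernel) (by decide +kernel) (by decide +kernel) (by decide +kernel)
    (by decide +kernel) (by decide +kernel) (by decide +kernel)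

theorem Qf_cases : ∀ B ∈ Qf L4, B ∈ E2 ∨ ∃ e ∈ L4, B = L4.erase e := by decide +kernel

theorem pair_facts : ∀ e ∈ L4, ∀ f ∈ L4, e ≠ f →
    insert 8 ((L4.erase e).erase f) ∈ E2 ∧ ∀ y ∈ L4, y ∉ insert 8 ((L4.erase e).erase f) →
      insert y ((insert 8 ((L4.erase e).erase f)).erase 8) = L4.erase e ∨
      insert y ((insert 8 ((L4.erase e).erase f)).erase 8) = L4.erase f := by
  decide +kernel

/-- classification of the cells on the other side of the facet -/
theorem classify {N : Finset (Finset (Fin 9))} (hN : IsMat N) (hsub : N ⊆ Qf L4) (hE : E2 ⊆ N)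
    (hT : ∃ e ∈ L4, L4.erase e ∈ N) :
    N = Qf L4 ∨ ∃ e ∈ L4, N = (Qf L4).erase (L4.erase e) := by
  have huniq : ∀ e ∈ L4, ∀ f ∈ L4, e ≠ f → L4.erase e ∉ N → L4.erase f ∈ N := by
    intro e he f hf hef hne
    by_contra hnf
    obtain ⟨g, hg, hgN⟩ := hT
    obtain ⟨h1, h2⟩ := pair_facts e he f hf hef
    have h8 : (8 : Fin 9) ∉ L4.erase g := by
      intro h
      have : (8 : Fin 9) ∉ L4 := by decide +kernel
      exact this (Finset.mem_of_mem_erase h)
    obtain ⟨y, hy1, hy2, hy3, _⟩ := hN.symm (hE h1) hgN (x := 8) (Finset.mem_insert_self _ _) h8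
    rcases h2 y (Finset.mem_of_mem_erase hy1) hy2 with h | h
    · rw [h] at hy3; exact hne hy3
    · rw [h] at hy3; exact hnf hy3
  by_cases hall : ∀ e ∈ L4, L4.erase e ∈ N
  · left
    apply Finset.Subset.antisymm hsub
    intro B hB
    rcases Qf_cases B hB with h | ⟨e, he, rfl⟩
    · exact hE h
    · exact hall e he
  · right
    push Not at hall
    obtain ⟨e, he, hne⟩ := hall
    refine ⟨e, he, ?_⟩
    apply Finset.Subset.antisymm
    · intro B hB
      exact Finset.mem_erase.2 ⟨fun h => hne (h ▸ hB), hsub hB⟩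
    · intro B hB
      obtain ⟨hBe, hBQ⟩ := Finset.mem_erase.1 hB
      rcases Qf_cases B hBQ with h | ⟨f, hf, rfl⟩
      · exact hE h
      · exact huniq e he f hf (fun h => hBe (by rw [h])) hne

theorem decomposes {N : Finset (Finset (Fin 9))} (hN : IsMat N) (hsub : N ⊆ Qf L4) (hE : E2 ⊆ N)
    (hT : ∃ e ∈ L4, L4.erase e ∈ N) : ∃ K, IsMatroidSubdivision (poly N) K ∧ poly N ∉ K := by
  rcases classify hN hsub hE hT with h | ⟨e, he, h⟩
  · rw [h]; exact case_all
  · have he' : e = 0 ∨ e = 1 ∨ e = 2 ∨ e = 3 := by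
      have : ∀ e ∈ L4, e = 0 ∨ e = 1 ∨ e = 2 ∨ e = 3 := by decide +kernel
      exact this e he
    rw [h] at hN ⊢
    rcases he' with rfl | rfl | rfl | rfl
    · exact case0 hN
    · exact case1 hN
    · exact case2 hN
    · exact case3 hN

theorem sm_z0 (S : Finset (Fin 9)) :
    sm S z0 = ((S ∩ L4).card : ℝ) * (1 / 2) + ((S \ L4).card : ℝ) * (1 / 5) := by
  rw [sm_apply]
  unfold z0
  rw [Finset.sum_ite, Finset.sum_const, Finset.sum_const, nsmul_eq_mul, nsmul_eq_mul,
    Finset.filter_mem_eq_inter, Finset.filter_notMem_eq_sdiff]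

theorem sm_y0 (S : Finset (Fin 9)) : sm S y0 = ((S ∩ L4).card : ℝ) * (3 / 4) := by
  rw [sm_apply]
  unfold y0
  rw [Finset.sum_ite, Finset.sum_const, Finset.sum_const_zero, nsmul_eq_mul, add_zero,
    Finset.filter_mem_eq_inter]

/-- the segment from the centre of the facet into the other side -/
noncomputable def zt (t : ℝ) : Fin 9 → ℝ := (1 - t) • z0 + t • y0

theorem zt_mem {t : ℝ} (h0 : 0 ≤ t) (h1 : t ≤ 1) : zt t ∈ poly (Tri 9) :=
  (convex_poly _) (poly_mono Mf_sub z0_mem) y0_mem (by linarith) h0 (by ring)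

theorem sm_zt (S : Finset (Fin 9)) (t : ℝ) : sm S (zt t) = (1 - t) * sm S z0 + t * sm S y0 := by
  unfold zt
  rw [map_add, map_smul, map_smul, smul_eq_mul, smul_eq_mul]

theorem sm_L4_zt (t : ℝ) : sm L4 (zt t) = 2 + t := by
  have h : L4.card = 4 := by decide +kernel
  rw [sm_zt, sm_z0, sm_y0, Finset.inter_self, Finset.sdiff_self, h]
  norm_num
  ring

theorem sm_other_zt {t : ℝ} (h0 : 0 ≤ t) (h1 : t ≤ 1) {ℓ : Finset (Fin 9)} (hℓ : ℓ ∈ lines)
    (hne : ℓ ≠ L4) : sm ℓ (zt t) < 2 := by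
  have h2 : (ℓ ∩ L4).card ≤ 1 := lines_inter ℓ hℓ L4 L4_mem hne
  have h3 : (ℓ \ L4).card ≤ 3 := by
    have : ∀ ℓ ∈ lines, ℓ ≠ L4 → (ℓ \ L4).card ≤ 3 := by decide +kernel
    exact this ℓ hℓ hne
  have h2' : ((ℓ ∩ L4).card : ℝ) ≤ 1 := by exact_mod_cast h2
  have h3' : ((ℓ \ L4).card : ℝ) ≤ 3 := by exact_mod_cast h3
  rw [sm_zt, sm_z0, sm_y0]
  have h4 : ((ℓ ∩ L4).card : ℝ) * (1 / 2) + ((ℓ \ L4).card : ℝ) * (1 / 5) ≤ 11 / 10 := by linarith
  have h5 : ((ℓ ∩ L4).card : ℝ) * (3 / 4) ≤ 3 / 4 := by linarith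
  have h6 : (1 - t) * (((ℓ ∩ L4).card : ℝ) * (1 / 2) + ((ℓ \ L4).card : ℝ) * (1 / 5))
      ≤ (1 - t) * (11 / 10) := mul_le_mul_of_nonneg_left h4 (by linarith)
  have h7 : t * (((ℓ ∩ L4).card : ℝ) * (3 / 4)) ≤ t * (3 / 4) := mul_le_mul_of_nonneg_left h5 h0
  nlinarith

theorem continuous_zt : Continuous zt := by
  unfold zt
  fun_prop

/-- the main theorem -/
theorem main : ∃ (K : Set (Set (Fin 9 → ℝ))) (C : Set (Fin 9 → ℝ)),
    IsFinest (hypersimplex 3 9) K ∧ IsMaximalCell K C ∧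
    (∃ N : Matroid (Fin 9), N.E = univ ∧ matroidPolytope N = C) ∧
    ∀ N : Matroid (Fin 9), matroidPolytope N = C → ¬ Indecomposable N := by
  rw [hypersimplex_eq]
  obtain ⟨K, hK, href⟩ := exists_finest (paving_subdivision lines lines_inter Mf_ne Qf_ne)
  have hKs := hK.1
  -- the rigid matroid is a cell
  have hMK : poly (Mf lines) ∈ K := by
    have hc := c0_mem
    rw [← hKs.cover] at hc
    obtain ⟨C, hC, hcC⟩ := hc
    obtain ⟨D, ⟨i, hi⟩, hCD⟩ := href C hC
    have hCi := hCD.trans hi.2.2.1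
    obtain ⟨N, hN, rfl⟩ := cell_eq hKs hC
    rcases i with _ | ⟨ℓ, hℓ⟩
    · simp only [Option.elim] at hCi
      have hsub : N ⊆ Mf lines := poly_subset_iff.1 hCi
      rwa [rigid hN hsub hcC] at hC
    · exfalso
      simp only [Option.elim] at hCi
      have h1 : ((2 : ℕ) : ℝ) ≤ sm ℓ (fun _ => 1 / 3 : Fin 9 → ℝ) :=
        le_sm (fun B hB => (mem_Qf.1 hB).2) (hCi hcC)
      rw [sm_apply, Finset.sum_const, nsmul_eq_mul] at h1
      have h2 : (ℓ.card : ℝ) ≤ 4 := by exact_mod_cast lines_card ℓ hℓ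
      push_cast at h1
      linarith
  -- a point beyond the facet, close to its centre
  obtain ⟨t, ht0, ht1, hU⟩ : ∃ t : ℝ, 0 < t ∧ t ≤ 1 ∧ ∀ C ∈ K, zt t ∈ C → z0 ∈ C := by
    have hfin : {C | C ∈ K ∧ z0 ∉ C}.Finite := hKs.finite.subset (fun C hC => hC.1)
    have hclosed : IsClosed (⋃ C ∈ {C | C ∈ K ∧ z0 ∉ C}, C) := by
      apply hfin.isClosed_biUnion
      rintro C ⟨hC, _⟩
      obtain ⟨N, _, rfl⟩ := cell_eq hKs hC
      exact isClosed_poly N
    have hz : z0 ∉ ⋃ C ∈ {C | C ∈ K ∧ z0 ∉ C}, C := by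
      simp only [mem_iUnion, not_exists]
      rintro C ⟨_, hC⟩ h
      exact hC h
    have hopen := hclosed.isOpen_compl
    have hpre : IsOpen (zt ⁻¹' (⋃ C ∈ {C | C ∈ K ∧ z0 ∉ C}, C)ᶜ) := hopen.preimage continuous_zt
    have h0 : (0 : ℝ) ∈ zt ⁻¹' (⋃ C ∈ {C | C ∈ K ∧ z0 ∉ C}, C)ᶜ := by
      have : zt 0 = z0 := by simp [zt]
      rw [mem_preimage, this]
      exact hz
    obtain ⟨ε, hε, hball⟩ := Metric.isOpen_iff.1 hpre 0 h0
    refine ⟨min (ε / 2) 1, by positivity, min_le_right _ _, ?_⟩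
    have hmem : min (ε / 2) 1 ∈ Metric.ball (0 : ℝ) ε := by
      rw [Metric.mem_ball, Real.dist_eq, sub_zero, abs_of_pos (by positivity)]
      have : min (ε / 2) 1 ≤ ε / 2 := min_le_left _ _
      linarith
    have hnot := hball hmem
    intro C hC hzC
    by_contra hcon
    apply hnot
    simp only [mem_iUnion]
    exact ⟨C, ⟨hC, hcon⟩, hzC⟩
  have hzt := zt_mem ht0.le ht1
  rw [← hKs.cover] at hzt
  obtain ⟨C0, hC0, hzC0⟩ := hzt
  obtain ⟨C, hCmax, hC0C⟩ := exists_maximal hKs hC0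
  have hzC : zt t ∈ C := hC0C hzC0
  have hz0C : z0 ∈ C := hU C hCmax.1 hzC
  obtain ⟨N, hN, hCN⟩ := cell_eq hKs hCmax.1
  obtain ⟨N', hN'E, hN'⟩ := hKs.isMatroidPolytope C hCmax.1
  obtain ⟨D, ⟨i, hi⟩, hCD⟩ := href C hCmax.1
  have hCi := hCD.trans hi.2.2.1
  -- the cell lies beyond the line
  have hsub : N ⊆ Qf L4 := by
    rcases i with _ | ⟨ℓ, hℓ⟩
    · exfalso
      simp only [Option.elim] at hCi
      have h1 : sm L4 (zt t) ≤ ((2 : ℕ) : ℝ) := by
        apply sm_le _ (hCi hzC)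
        intro B hB
        rw [mem_Mf] at hB
        by_contra hcon
        have h1 : B ∩ L4 = B :=
          Finset.eq_of_subset_of_card_le Finset.inter_subset_left (by omega)
        exact hB.2 L4 L4_mem (Finset.inter_eq_left.1 h1)
      rw [sm_L4_zt] at h1
      push_cast at h1
      linarith
    · simp only [Option.elim] at hCi
      by_cases hℓL : ℓ = L4
      · subst hℓL
        rw [hCN] at hCi
        exact poly_subset_iff.1 hCi
      · exfalso
        have h1 : ((2 : ℕ) : ℝ) ≤ sm ℓ (zt t) :=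
          le_sm (fun B hB => (mem_Qf.1 hB).2) (hCi hzC)
        have h2 := sm_other_zt ht0.le ht1 hℓ hℓL
        push_cast at h1
        linarith
  -- it contains the whole facet
  have hE : E2 ⊆ N := by
    intro B hB
    have hne : (C ∩ poly (Mf lines)).Nonempty := ⟨z0, hz0C, z0_mem⟩
    have hface := (hKs.inter C hCmax.1 _ hMK hne).2
    have hz : z0 ∈ C ∩ poly (Mf lines) := ⟨hz0C, z0_mem⟩
    have hBC : ev B ∈ C ∩ poly (Mf lines) := by
      classical
      refine ev_mem_of_weight hface.2.2 (w := fun A => if A ∈ E2 then 1 / 30 else 0) ?_ ?_ ?_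
        (E2_sub_Mf hB) ?_
      · intro A; by_cases hA : A ∈ E2 <;> simp [hA]
      · rw [Finset.sum_ite_mem, Finset.inter_eq_right.2 E2_sub_Mf, Finset.sum_const, E2_card]
        norm_num
      · have : ∑ A ∈ Mf lines, (if A ∈ E2 then (1 / 30 : ℝ) else 0) • ev A = z0 := by
          rw [z0_eq]
          simp only [ite_smul, zero_smul]
          rw [Finset.sum_ite_mem, Finset.inter_eq_right.2 E2_sub_Mf]
        rw [this]; exact hz
      · simp only [if_pos hB]; norm_num
    rw [hCN] at hBC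
    exact ev_mem_poly_iff.1 hBC.1
  have hT : ∃ e ∈ L4, L4.erase e ∈ N := by
    by_contra hcon
    push Not at hcon
    have h1 : sm L4 (zt t) ≤ ((2 : ℕ) : ℝ) := by
      apply sm_le _ (F := N)
      · rw [← hCN]; exact hzC
      · intro B hB
        rcases Qf_cases B (hsub hB) with h | ⟨e, he, h⟩
        · exact (mem_E2.1 h).2.le
        · exact absurd (h ▸ hB) (hcon e he)
    rw [sm_L4_zt] at h1
    push_cast at h1
    linarith
  obtain ⟨K', hK', hnot⟩ := decomposes hN hsub hE hT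
  refine ⟨K, C, hK, hCmax, ⟨N', hN'E, hN'.symm⟩, ?_⟩
  intro N1 hN1 hind
  have h1 : matroidPolytope N1 = poly N := by rw [hN1, hCN]
  have h2 := hind K' (by rw [h1]; exact hK')
  apply hnot
  rw [h2, h1]
  exact ⟨poly_nonempty hN.nonempty, convex_poly _, IsExtreme.refl ℝ _⟩

end Pool.Agent.Q145.MS
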