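import Pool.Agent.Q145.MS.Pot

set_option autoImplicit false

namespace Pool.Agent.Q145.MS

open Set

variable {n : ℕ}

/-- the face where a linear functional is maximal is extreme -/
theorem ext_of_le {A : Set (Fin n → ℝ)} (f : (Fin n → ℝ) →ₗ[ℝ] ℝ) (c : ℝ)
    (h : ∀ x ∈ A, f x ≤ c) : IsExtreme ℝ A {x | x ∈ A ∧ f x = c} := by
  refine ⟨fun x hx => hx.1, ?_⟩
  rintro x hx y hy z ⟨hz, hfz⟩ ⟨a, b, ha, hb, hab, rfl⟩
  rw [map_add, map_smul, map_smul, smul_eq_mul, smul_eq_mul] at hfz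
  have h1 := h x hx
  have h2 := h y hy
  refine ⟨hx, ?_⟩
  by_contra hne
  have h3 : f x < c := lt_of_le_of_ne h1 hne
  have h4 : a * f x < a * c := mul_lt_mul_of_pos_left h3 ha
  have h5 : b * f y ≤ b * c := mul_le_mul_of_nonneg_left h2 hb.le
  have h6 : a * c + b * c = c := by rw [← add_mul, hab, one_mul]
  linarith

theorem ext_of_ge {A : Set (Fin n → ℝ)} (f : (Fin n → ℝ) →ₗ[ℝ] ℝ) (c : ℝ)
    (h : ∀ x ∈ A, c ≤ f x) : IsExtreme ℝ A {x | x ∈ A ∧ f x = c} := by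
  have := ext_of_le (A := A) (-f) (-c) (fun x hx => by
    rw [LinearMap.neg_apply]; linarith [h x hx])
  convert this using 1
  ext x
  simp

/-- card facts for exchanges -/
theorem card_exch {A S : Finset (Fin n)} {x y : Fin n} (hx : x ∈ A) (hy : y ∉ A) :
    ((insert y (A.erase x)) ∩ S).card + (if x ∈ S then 1 else 0)
      = (A ∩ S).card + (if y ∈ S then 1 else 0) := by
  classical
  have h1 : ((A.erase x) ∩ S).card + (if x ∈ S then 1 else 0) = (A ∩ S).card := by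
    by_cases hxS : x ∈ S
    · rw [if_pos hxS, Finset.erase_inter, Finset.card_erase_add_one (Finset.mem_inter.2 ⟨hx, hxS⟩)]
    · rw [if_neg hxS, Finset.erase_inter, Finset.erase_eq_of_notMem (fun h =>
        hxS (Finset.mem_inter.1 h).2), add_zero]
  have h2 : ((insert y (A.erase x)) ∩ S).card = ((A.erase x) ∩ S).card + (if y ∈ S then 1 else 0) := by
    by_cases hyS : y ∈ S
    · rw [if_pos hyS, Finset.insert_inter_of_mem hyS, Finset.card_insert_of_notMem]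
      intro h
      exact hy (Finset.mem_of_mem_erase (Finset.mem_inter.1 h).1)
    · rw [if_neg hyS, Finset.insert_inter_of_notMem hyS, add_zero]
  omega

theorem card_exch' {A : Finset (Fin n)} {x y : Fin n} (hx : x ∈ A) (hy : y ∉ A) :
    (insert y (A.erase x)).card = A.card := by
  rw [Finset.card_insert_of_notMem (fun h => hy (Finset.mem_of_mem_erase h)),
    Finset.card_erase_add_one hx]

/-- the triples -/
abbrev Tri (n : ℕ) : Finset (Finset (Fin n)) := Finset.powersetCard 3 Finset.univ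

theorem mem_Tri {B : Finset (Fin n)} : B ∈ Tri n ↔ B.card = 3 := by
  simp [Tri, Finset.mem_powersetCard]

/-- triples of rank three: `κ` assigns the parallel classes and `ℒ` is the set of lines (of
classes) -/
def Fam {α : Type*} [DecidableEq α] (κ : Fin n → α) (ℒ : Finset (Finset α)) :
    Finset (Finset (Fin n)) :=
  (Tri n).filter (fun B => (B.image κ).card = 3 ∧ ∀ ℓ ∈ ℒ, ¬ B.image κ ⊆ ℓ)

theorem isMat_Fam {α : Type*} [DecidableEq α] (κ : Fin n → α) (ℒ : Finset (Finset α))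
    (hℒ : ∀ ℓ ∈ ℒ, ∀ m ∈ ℒ, ℓ ≠ m → (ℓ ∩ m).card ≤ 1) (hne : (Fam κ ℒ).Nonempty) :
    IsMat (Fam κ ℒ) := by
  apply isMat_of_exchange hne
  intro A hA B hB x hxA hxB
  simp only [Fam, Finset.mem_filter, mem_Tri] at hA hB ⊢
  obtain ⟨hA1, hA2, hA3⟩ := hA
  obtain ⟨hB1, hB2, hB3⟩ := hB
  have hinj : Set.InjOn κ (A : Set (Fin n)) := Finset.card_image_iff.1 (by rw [hA2, hA1])
  set P := (A.erase x).image κ with hP
  have hPc : P.card = 2 := by
    rw [hP, Finset.card_image_of_injOn (hinj.mono (by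
      intro z hz; exact Finset.mem_of_mem_erase hz)), Finset.card_erase_of_mem hxA, hA1]
  have claim : ∃ y ∈ B, κ y ∉ P ∧ ∀ ℓ ∈ ℒ, ¬ insert (κ y) P ⊆ ℓ := by
    by_cases h : ∃ ℓ ∈ ℒ, P ⊆ ℓ
    · obtain ⟨ℓ, hℓ, hPℓ⟩ := h
      have h1 := hB3 ℓ hℓ
      rw [Finset.image_subset_iff] at h1
      push Not at h1
      obtain ⟨y, hy, hyℓ⟩ := h1
      refine ⟨y, hy, fun h2 => hyℓ (hPℓ h2), ?_⟩
      intro m hm hsub
      by_cases hlm : ℓ = m
      · subst hlm
        exact hyℓ (hsub (Finset.mem_insert_self _ _))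
      · have h2 : P ⊆ ℓ ∩ m := Finset.subset_inter hPℓ
          ((Finset.subset_insert _ _).trans hsub)
        have h3 := Finset.card_le_card h2
        have h4 := hℒ ℓ hℓ m hm hlm
        omega
    · push Not at h
      have h1 : ¬ B.image κ ⊆ P := by
        intro h2
        have := Finset.card_le_card h2
        omega
      rw [Finset.image_subset_iff] at h1
      push Not at h1
      obtain ⟨y, hy, hyP⟩ := h1
      refine ⟨y, hy, hyP, ?_⟩
      intro m hm hsub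
      exact h m hm ((Finset.subset_insert _ _).trans hsub)
  obtain ⟨y, hyB, hyP, hyℒ⟩ := claim
  have hyA : y ∉ A := by
    intro hyA
    have hyx : y ≠ x := fun h => hxB (h ▸ hyB)
    exact hyP (Finset.mem_image_of_mem κ (Finset.mem_erase.2 ⟨hyx, hyA⟩))
  refine ⟨y, hyB, hyA, ?_, ?_, ?_⟩
  · rw [card_exch' hxA hyA, hA1]
  · rw [Finset.image_insert, Finset.card_insert_of_notMem hyP, hPc]
  · intro ℓ hℓ
    rw [Finset.image_insert]
    exact hyℒ ℓ hℓ

/-- the cell cut off by a line -/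
def Qf (ℓ : Finset (Fin n)) : Finset (Finset (Fin n)) :=
  (Tri n).filter (fun B => 2 ≤ (B ∩ ℓ).card)

theorem mem_Qf {ℓ B : Finset (Fin n)} : B ∈ Qf ℓ ↔ B.card = 3 ∧ 2 ≤ (B ∩ ℓ).card := by
  simp [Qf, mem_Tri, -Finset.mem_powersetCard]

theorem isMat_Qf (ℓ : Finset (Fin n)) (hne : (Qf ℓ).Nonempty) : IsMat (Qf ℓ) := by
  apply isMat_of_exchange hne
  intro A hA B hB x hxA hxB
  rw [mem_Qf] at hA hB
  by_cases h : 2 ≤ ((A.erase x) ∩ ℓ).card
  · have h1 : ¬ B ⊆ A := by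
      intro hBA
      have := Finset.eq_of_subset_of_card_le hBA (by rw [hA.1, hB.1])
      exact hxB (this ▸ hxA)
    obtain ⟨y, hyB, hyA⟩ := Finset.not_subset.1 h1
    refine ⟨y, hyB, hyA, mem_Qf.2 ⟨by rw [card_exch' hxA hyA, hA.1], h.trans ?_⟩⟩
    exact Finset.card_le_card (Finset.inter_subset_inter_right (Finset.subset_insert _ _))
  · have h1 : ¬ (B ∩ ℓ ⊆ (A.erase x) ∩ ℓ) := by
      intro hsub
      have := Finset.card_le_card hsub
      omega
    obtain ⟨y, hyBl, hyA⟩ := Finset.not_subset.1 h1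
    obtain ⟨hyB, hyl⟩ := Finset.mem_inter.1 hyBl
    have hyx : y ≠ x := fun h => hxB (h ▸ hyB)
    have hyA' : y ∉ A := fun h => hyA (Finset.mem_inter.2 ⟨Finset.mem_erase.2 ⟨hyx, h⟩, hyl⟩)
    refine ⟨y, hyB, hyA', mem_Qf.2 ⟨by rw [card_exch' hxA hyA', hA.1], ?_⟩⟩
    have h2 := card_exch (S := ℓ) hxA hyA'
    rw [if_pos hyl] at h2
    have : (if x ∈ ℓ then 1 else 0) ≤ 1 := by split_ifs <;> omega
    omega

/-- the paving matroid with lines `ℒ` -/
def Mf (ℒ : Finset (Finset (Fin n))) : Finset (Finset (Fin n)) :=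
  (Tri n).filter (fun B => ∀ ℓ ∈ ℒ, ¬ B ⊆ ℓ)

theorem mem_Mf {ℒ : Finset (Finset (Fin n))} {B : Finset (Fin n)} :
    B ∈ Mf ℒ ↔ B.card = 3 ∧ ∀ ℓ ∈ ℒ, ¬ B ⊆ ℓ := by
  simp [Mf, mem_Tri, -Finset.mem_powersetCard]

theorem isMat_Mf (ℒ : Finset (Finset (Fin n)))
    (hℒ : ∀ ℓ ∈ ℒ, ∀ m ∈ ℒ, ℓ ≠ m → (ℓ ∩ m).card ≤ 1) (hne : (Mf ℒ).Nonempty) :
    IsMat (Mf ℒ) := by
  have e : Mf ℒ = Fam (fun i : Fin n => i) ℒ := by
    ext B
    simp only [mem_Mf, Fam, Finset.mem_filter, mem_Tri, Finset.image_id']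
    constructor
    · rintro ⟨h1, h2⟩; exact ⟨h1, h1, h2⟩
    · rintro ⟨h1, _, h2⟩; exact ⟨h1, h2⟩
  rw [e]
  exact isMat_Fam _ _ hℒ (by rwa [← e])

theorem mem_poly_Qf {ℓ : Finset (Fin n)} {x : Fin n → ℝ} (hx : x ∈ poly (Tri n))
    (hs : 2 ≤ sm ℓ x) : x ∈ poly (Qf ℓ) := by
  have := pot hx (fun B => 2 - (B ∩ ℓ).card) ?_
  · refine poly_mono ?_ this
    intro B hB
    rw [Finset.mem_filter] at hB
    rw [mem_Qf]
    exact ⟨mem_Tri.1 hB.1, by omega⟩
  · intro w hw B1 hB1 hw1 hφ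
    obtain ⟨B2, hB2, hw2, hc2⟩ := exists_gt hw (S := ℓ) (c := 2) (by exact_mod_cast hs) hB1 hw1
      (by omega)
    rw [mem_Tri] at hB1 hB2
    have h1 : B2 ∩ ℓ = B2 := Finset.eq_of_subset_of_card_le Finset.inter_subset_left (by omega)
    have hB2l : B2 ⊆ ℓ := Finset.inter_eq_left.1 h1
    have h2 : ¬ B2 ⊆ B1 := by
      intro hsub
      have h3 : B2 ⊆ B1 ∩ ℓ := Finset.subset_inter hsub hB2l
      have := Finset.card_le_card h3
      omega
    obtain ⟨u, hu2, hu1⟩ := Finset.not_subset.1 h2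
    have h3 : ¬ B1 ⊆ ℓ := by
      intro hsub
      rw [Finset.inter_eq_left.2 hsub] at hφ
      omega
    obtain ⟨v, hv1, hvl⟩ := Finset.not_subset.1 h3
    have hv2 : v ∉ B2 := fun h => hvl (hB2l h)
    refine ⟨B2, mem_Tri.2 hB2, hw2, insert u (B1.erase v),
      mem_Tri.2 (by rw [card_exch' hv1 hu1, hB1]), insert v (B2.erase u),
      mem_Tri.2 (by rw [card_exch' hu2 hv2, hB2]), ev_exchange hv1 hv2 hu2 hu1, ?_⟩
    have e1 := card_exch (S := ℓ) hv1 hu1
    have e2 := card_exch (S := ℓ) hu2 hv2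
    rw [if_neg hvl, if_pos (hB2l hu2)] at e1
    rw [if_neg hvl, if_pos (hB2l hu2)] at e2
    omega

theorem mem_poly_Mf {ℒ : Finset (Finset (Fin n))}
    (hℒ : ∀ ℓ ∈ ℒ, ∀ m ∈ ℒ, ℓ ≠ m → (ℓ ∩ m).card ≤ 1) {x : Fin n → ℝ} (hx : x ∈ poly (Tri n))
    (hs : ∀ ℓ ∈ ℒ, sm ℓ x ≤ 2) : x ∈ poly (Mf ℒ) := by
  classical
  have := pot hx (fun B => if B ∈ Mf ℒ then 0 else 1) ?_
  · refine poly_mono ?_ this
    intro B hB
    rw [Finset.mem_filter] at hB
    by_contra hn
    have := hB.2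
    rw [if_neg hn] at this
    omega
  · intro w hw B1 hB1 hw1 hφ
    have hB1M : B1 ∉ Mf ℒ := by
      intro h
      simp only [if_pos h] at hφ
      omega
    have hB1c := mem_Tri.1 hB1
    have hex : ∃ ℓ ∈ ℒ, B1 ⊆ ℓ := by
      by_contra hcon
      push Not at hcon
      exact hB1M (mem_Mf.2 ⟨hB1c, hcon⟩)
    obtain ⟨ℓ, hℓ, hB1ℓ⟩ := hex
    obtain ⟨B2, hB2, hw2, hc2⟩ := exists_lt hw (S := ℓ) (c := 2) (by exact_mod_cast hs ℓ hℓ) hB1 hw1
      (by rw [Finset.inter_eq_left.2 hB1ℓ]; omega)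
    have hB2c := mem_Tri.1 hB2
    -- `v ∈ B2` off the line
    have h3 : ¬ B2 ⊆ ℓ := by
      intro hsub
      rw [Finset.inter_eq_left.2 hsub] at hc2
      omega
    obtain ⟨v, hv2, hvl⟩ := Finset.not_subset.1 h3
    have hv1 : v ∉ B1 := fun h => hvl (hB1ℓ h)
    have hPc : (B2.erase v).card = 2 := by rw [Finset.card_erase_of_mem hv2, hB2c]
    have hPl : ((B2.erase v) ∩ ℓ).card ≤ 1 := by
      have : ((B2.erase v) ∩ ℓ).card ≤ (B2 ∩ ℓ).card :=
        Finset.card_le_card (Finset.inter_subset_inter_right (Finset.erase_subset _ _))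
      omega
    -- choose `u`
    have hu : ∃ u ∈ B1, u ∉ B2.erase v ∧ ∀ m ∈ ℒ, ¬ insert u (B2.erase v) ⊆ m := by
      by_cases h : ∃ m ∈ ℒ, B2.erase v ⊆ m
      · obtain ⟨m, hm, hPm⟩ := h
        have hml : ℓ ≠ m := by
          rintro rfl
          rw [Finset.inter_eq_left.2 hPm] at hPl
          omega
        have h4 : ¬ B1 ⊆ m := by
          intro hsub
          have h5 : B1 ⊆ ℓ ∩ m := Finset.subset_inter hB1ℓ hsub
          have h6 := Finset.card_le_card h5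
          have h7 := hℒ ℓ hℓ m hm hml
          omega
        obtain ⟨u, hu1, hum⟩ := Finset.not_subset.1 h4
        refine ⟨u, hu1, fun h => hum (hPm h), ?_⟩
        intro m' hm' hsub
        by_cases hmm : m = m'
        · subst hmm
          exact hum (hsub (Finset.mem_insert_self _ _))
        · have h5 : B2.erase v ⊆ m ∩ m' := Finset.subset_inter hPm
            ((Finset.subset_insert _ _).trans hsub)
          have h6 := Finset.card_le_card h5
          have h7 := hℒ m hm m' hm' hmm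
          omega
      · push Not at h
        have h4 : ¬ B1 ⊆ B2.erase v := by
          intro hsub
          have := Finset.card_le_card hsub
          omega
        obtain ⟨u, hu1, hu2⟩ := Finset.not_subset.1 h4
        exact ⟨u, hu1, hu2, fun m hm hsub => h m hm ((Finset.subset_insert _ _).trans hsub)⟩
    obtain ⟨u, hu1, hu2, hum⟩ := hu
    have hu2' : u ∉ B2 := by
      intro h
      exact hu2 (Finset.mem_erase.2 ⟨fun h' => hv1 (h' ▸ hu1), h⟩)
    have hC1 : insert v (B1.erase u) ∈ Mf ℒ := by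
      rw [mem_Mf]
      refine ⟨by rw [card_exch' hu1 hv1, hB1c], ?_⟩
      intro m hm hsub
      have hml : ℓ ≠ m := by
        rintro rfl
        exact hvl (hsub (Finset.mem_insert_self _ _))
      have h5 : B1.erase u ⊆ ℓ ∩ m := Finset.subset_inter
        ((Finset.erase_subset _ _).trans hB1ℓ) ((Finset.subset_insert _ _).trans hsub)
      have h6 := Finset.card_le_card h5
      have h7 := hℒ ℓ hℓ m hm hml
      rw [Finset.card_erase_of_mem hu1] at h6
      omega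
    have hC2 : insert u (B2.erase v) ∈ Mf ℒ := by
      rw [mem_Mf]
      exact ⟨by rw [card_exch' hv2 hu2', hB2c], hum⟩
    refine ⟨B2, hB2, hw2, insert v (B1.erase u), Finset.mem_of_mem_filter _ hC1,
      insert u (B2.erase v), Finset.mem_of_mem_filter _ hC2, ev_exchange hu1 hu2' hv2 hv1, ?_⟩
    simp only [if_pos hC1, if_pos hC2, if_neg hB1M]
    split_ifs <;> omega

theorem Qf_inter_le {ℒ : Finset (Finset (Fin n))}
    (hℒ : ∀ ℓ ∈ ℒ, ∀ m ∈ ℒ, ℓ ≠ m → (ℓ ∩ m).card ≤ 1) {ℓ m : Finset (Fin n)} (hℓ : ℓ ∈ ℒ)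
    (hm : m ∈ ℒ) (hlm : ℓ ≠ m) {x : Fin n → ℝ} (hx : x ∈ poly (Qf ℓ)) : sm m x ≤ 2 := by
  have : sm m x ≤ ((2 : ℕ) : ℝ) := by
    apply sm_le _ hx
    intro B hB
    rw [mem_Qf] at hB
    by_contra hcon
    have h1 : B ∩ m = B := Finset.eq_of_subset_of_card_le Finset.inter_subset_left (by omega)
    have h2 : B ∩ ℓ ⊆ ℓ ∩ m := Finset.subset_inter Finset.inter_subset_right
      (Finset.inter_subset_left.trans (Finset.inter_eq_left.1 h1))
    have h3 := Finset.card_le_card h2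
    have h4 := hℒ ℓ hℓ m hm hlm
    omega
  exact_mod_cast this

/-- the subdivision of `Δ(3,n)` attached to the lines of a paving matroid -/
theorem paving_subdivision (ℒ : Finset (Finset (Fin n)))
    (hℒ : ∀ ℓ ∈ ℒ, ∀ m ∈ ℒ, ℓ ≠ m → (ℓ ∩ m).card ≤ 1) (hM : (Mf ℒ).Nonempty)
    (hQ : ∀ ℓ ∈ ℒ, (Qf ℓ).Nonempty) :
    IsMatroidSubdivision (poly (Tri n))
      {E | ∃ i : Option {ℓ // ℓ ∈ ℒ}, IsFace (poly (i.elim (Mf ℒ) (fun ℓ => Qf ℓ.1))) E} := by
  have hsubM : Mf ℒ ⊆ Tri n := Finset.filter_subset _ _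
  have hsubQ : ∀ ℓ : Finset (Fin n), Qf ℓ ⊆ Tri n := fun ℓ => Finset.filter_subset _ _
  have hMle : ∀ ℓ ∈ ℒ, ∀ x ∈ poly (Mf ℒ), sm ℓ x ≤ 2 := by
    intro ℓ hℓ x hx
    have : sm ℓ x ≤ ((2 : ℕ) : ℝ) := by
      apply sm_le _ hx
      intro B hB
      rw [mem_Mf] at hB
      by_contra hcon
      have h1 : B ∩ ℓ = B := Finset.eq_of_subset_of_card_le Finset.inter_subset_left (by omega)
      exact hB.2 ℓ hℓ (Finset.inter_eq_left.1 h1)
    exact_mod_cast this
  have hQge : ∀ ℓ : Finset (Fin n), ∀ x ∈ poly (Qf ℓ), 2 ≤ sm ℓ x := by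
    intro ℓ x hx
    have : ((2 : ℕ) : ℝ) ≤ sm ℓ x := le_sm (fun B hB => (mem_Qf.1 hB).2) hx
    exact_mod_cast this
  refine build (fun i : Option {ℓ // ℓ ∈ ℒ} => i.elim (Mf ℒ) (fun ℓ => Qf ℓ.1)) (Tri n) ?_ ?_ ?_ ?_
  · rintro (_ | ⟨ℓ, hℓ⟩)
    · exact isMat_Mf ℒ hℒ hM
    · exact isMat_Qf ℓ (hQ ℓ hℓ)
  · rintro (_ | ⟨ℓ, hℓ⟩)
    · exact hsubM
    · exact hsubQ ℓ
  · intro x hx
    by_cases h : ∃ ℓ ∈ ℒ, 2 ≤ sm ℓ x
    · obtain ⟨ℓ, hℓ, hs⟩ := h
      exact ⟨some ⟨ℓ, hℓ⟩, mem_poly_Qf hx hs⟩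
    · push Not at h
      exact ⟨none, mem_poly_Mf hℒ hx (fun ℓ hℓ => (h ℓ hℓ).le)⟩
  · rintro (_ | ⟨ℓ, hℓ⟩) (_ | ⟨m, hm⟩) _
    · simp only [Option.elim, inter_self]
      exact IsExtreme.refl ℝ _
    · have e : poly (Mf ℒ) ∩ poly (Qf m) = {x | x ∈ poly (Mf ℒ) ∧ sm m x = 2} := by
        apply Subset.antisymm
        · rintro x ⟨h1, h2⟩
          exact ⟨h1, le_antisymm (hMle m hm x h1) (hQge m x h2)⟩
        · rintro x ⟨h1, h2⟩
          exact ⟨h1, mem_poly_Qf (poly_mono hsubM h1) h2.ge⟩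
      simp only [Option.elim]
      rw [e]
      exact ext_of_le (sm m) 2 (hMle m hm)
    · have e : poly (Qf ℓ) ∩ poly (Mf ℒ) = {x | x ∈ poly (Qf ℓ) ∧ sm ℓ x = 2} := by
        apply Subset.antisymm
        · rintro x ⟨h1, h2⟩
          exact ⟨h1, le_antisymm (hMle ℓ hℓ x h2) (hQge ℓ x h1)⟩
        · rintro x ⟨h1, h2⟩
          refine ⟨h1, mem_poly_Mf hℒ (poly_mono (hsubQ ℓ) h1) ?_⟩
          intro m hm
          by_cases hlm : ℓ = m
          · subst hlm; exact h2.le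
          · exact Qf_inter_le hℒ hℓ hm hlm h1
      simp only [Option.elim]
      rw [e]
      exact ext_of_ge (sm ℓ) 2 (hQge ℓ)
    · simp only [Option.elim]
      by_cases hlm : ℓ = m
      · subst hlm
        simp only [inter_self]
        exact IsExtreme.refl ℝ _
      · have e : poly (Qf ℓ) ∩ poly (Qf m) = {x | x ∈ poly (Qf ℓ) ∧ sm m x = 2} := by
          apply Subset.antisymm
          · rintro x ⟨h1, h2⟩
            exact ⟨h1, le_antisymm (Qf_inter_le hℒ hℓ hm hlm h1) (hQge m x h2)⟩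
          · rintro x ⟨h1, h2⟩
            exact ⟨h1, mem_poly_Qf (poly_mono (hsubQ ℓ) h1) h2.ge⟩
        rw [e]
        exact ext_of_le (sm m) 2 (fun x hx => Qf_inter_le hℒ hℓ hm hlm hx)

/-- cutting a matroid polytope by `x(S) = 1`, `|S| = 2` -/
theorem split_subdivision {N : Finset (Finset (Fin n))} {S : Finset (Fin n)} (hN : IsMat N)
    (hS : S.card = 2) (h1 : IsMat (N.filter (fun B => (B ∩ S).card ≤ 1)))
    (h2 : IsMat (N.filter (fun B => 1 ≤ (B ∩ S).card)))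
    (hlow : ∃ B ∈ N, (B ∩ S).card = 0) (hhigh : ∃ B ∈ N, (B ∩ S).card = 2) :
    ∃ K, IsMatroidSubdivision (poly N) K ∧ poly N ∉ K := by
  set N1 := N.filter (fun B => (B ∩ S).card ≤ 1) with hN1
  set N2 := N.filter (fun B => 1 ≤ (B ∩ S).card) with hN2
  have hcS : ∀ B : Finset (Fin n), (B ∩ S).card ≤ 2 := by
    intro B
    rw [← hS]
    exact Finset.card_le_card Finset.inter_subset_right
  have key : ∀ B1 ∈ N, ∀ B2 ∈ N, (B1 ∩ S).card = 2 → (B2 ∩ S).card = 0 →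
      ∃ C1 ∈ N, ∃ C2 ∈ N, ev B1 + ev B2 = ev C1 + ev C2 ∧ (C1 ∩ S).card = 1 ∧
        (C2 ∩ S).card = 1 := by
    intro B1 hB1 B2 hB2 hc1 hc2
    have hne : (B1 ∩ S).Nonempty := by rw [← Finset.card_pos]; omega
    obtain ⟨q, hq⟩ := hne
    obtain ⟨hq1, hqS⟩ := Finset.mem_inter.1 hq
    have hB2S : ∀ z ∈ B2, z ∉ S := by
      intro z hz hzS
      have : (B2 ∩ S) = ∅ := Finset.card_eq_zero.1 hc2
      have hz' : z ∈ B2 ∩ S := Finset.mem_inter.2 ⟨hz, hzS⟩
      rw [this] at hz'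
      simp at hz'
    have hq2 : q ∉ B2 := fun h => hB2S q h hqS
    obtain ⟨y, hy2, hy1, hC1, hC2⟩ := hN.symm hB1 hB2 hq1 hq2
    refine ⟨_, hC1, _, hC2, ev_exchange hq1 hq2 hy2 hy1, ?_, ?_⟩
    · have := card_exch (S := S) hq1 hy1
      rw [if_pos hqS, if_neg (hB2S y hy2)] at this
      omega
    · have := card_exch (S := S) hy2 hq2
      rw [if_pos hqS, if_neg (hB2S y hy2)] at this
      omega
  have in1 : ∀ x ∈ poly N, sm S x ≤ 1 → x ∈ poly N1 := by
    intro x hx hs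
    have := pot hx (fun B => (B ∩ S).card - 1) ?_
    · refine poly_mono ?_ this
      intro B hB
      rw [Finset.mem_filter] at hB
      rw [hN1, Finset.mem_filter]
      exact ⟨hB.1, by omega⟩
    · intro w hw B1 hB1 hw1 hφ
      obtain ⟨B2, hB2, hw2, hc2⟩ := exists_lt hw (S := S) (c := 1) (by exact_mod_cast hs) hB1 hw1
        (by omega)
      have := hcS B1
      obtain ⟨C1, hC1, C2, hC2, hev, k1, k2⟩ := key B1 hB1 B2 hB2 (by omega) (by omega)
      refine ⟨B2, hB2, hw2, C1, hC1, C2, hC2, hev, ?_⟩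
      omega
  have in2 : ∀ x ∈ poly N, 1 ≤ sm S x → x ∈ poly N2 := by
    intro x hx hs
    have := pot hx (fun B => 1 - (B ∩ S).card) ?_
    · refine poly_mono ?_ this
      intro B hB
      rw [Finset.mem_filter] at hB
      rw [hN2, Finset.mem_filter]
      exact ⟨hB.1, by omega⟩
    · intro w hw B1 hB1 hw1 hφ
      obtain ⟨B2, hB2, hw2, hc2⟩ := exists_gt hw (S := S) (c := 1) (by exact_mod_cast hs) hB1 hw1
        (by omega)
      have := hcS B2
      obtain ⟨C1, hC1, C2, hC2, hev, k1, k2⟩ := key B2 hB2 B1 hB1 (by omega) (by omega)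
      refine ⟨B2, hB2, hw2, C1, hC1, C2, hC2, by rw [add_comm]; exact hev, ?_⟩
      omega
  have le1 : ∀ x ∈ poly N1, sm S x ≤ 1 := by
    intro x hx
    have : sm S x ≤ ((1 : ℕ) : ℝ) := sm_le (fun B hB => (Finset.mem_filter.1 hB).2) hx
    exact_mod_cast this
  have ge2 : ∀ x ∈ poly N2, 1 ≤ sm S x := by
    intro x hx
    have : ((1 : ℕ) : ℝ) ≤ sm S x := le_sm (fun B hB => (Finset.mem_filter.1 hB).2) hx
    exact_mod_cast this
  have s1 : N1 ⊆ N := Finset.filter_subset _ _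
  have s2 : N2 ⊆ N := Finset.filter_subset _ _
  refine ⟨{E | ∃ i : Bool, IsFace (poly (if i then N1 else N2)) E}, ?_, ?_⟩
  · refine build (fun i : Bool => if i then N1 else N2) N ?_ ?_ ?_ ?_
    · intro i; cases i <;> simp [h1, h2]
    · intro i; cases i <;> simp [s1, s2]
    · intro x hx
      by_cases h : sm S x ≤ 1
      · exact ⟨true, by simpa using in1 x hx h⟩
      · exact ⟨false, by simpa using in2 x hx (by linarith)⟩
    · intro i j _
      cases i <;> cases j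
      · simp only [inter_self]; exact IsExtreme.refl ℝ _
      · have e : poly N2 ∩ poly N1 = {x | x ∈ poly N2 ∧ sm S x = 1} := by
          apply Subset.antisymm
          · rintro x ⟨h3, h4⟩
            exact ⟨h3, le_antisymm (le1 x h4) (ge2 x h3)⟩
          · rintro x ⟨h3, h4⟩
            exact ⟨h3, in1 x (poly_mono s2 h3) h4.le⟩
        simp only [Bool.false_eq_true, if_false, if_true]
        rw [e]
        exact ext_of_ge (sm S) 1 ge2
      · have e : poly N1 ∩ poly N2 = {x | x ∈ poly N1 ∧ sm S x = 1} := by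
          apply Subset.antisymm
          · rintro x ⟨h3, h4⟩
            exact ⟨h3, le_antisymm (le1 x h3) (ge2 x h4)⟩
          · rintro x ⟨h3, h4⟩
            exact ⟨h3, in2 x (poly_mono s1 h3) h4.ge⟩
        simp only [Bool.false_eq_true, if_false, if_true]
        rw [e]
        exact ext_of_le (sm S) 1 le1
      · simp only [inter_self]; exact IsExtreme.refl ℝ _
  · rintro ⟨i, hi⟩
    have hsub := hi.2.2.1
    rw [poly_subset_iff] at hsub
    obtain ⟨B, hB, hBc⟩ := hlow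
    obtain ⟨C, hC, hCc⟩ := hhigh
    cases i
    · have := hsub hB
      simp only [Bool.false_eq_true, if_false, hN2, Finset.mem_filter] at this
      omega
    · have := hsub hC
      simp only [if_true, hN1, Finset.mem_filter] at this
      omega

end Pool.Agent.Q145.MS
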