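import Pool.Agent.Q145.MS.Complex

set_option autoImplicit false

namespace Pool.Agent.Q145.MS

open Set

variable {n : ℕ}

/-- the set of weights representing `x` over the family `A` -/
def Wts (A : Finset (Finset (Fin n))) (x : Fin n → ℝ) : Set (Finset (Fin n) → ℝ) :=
  {w | (∀ B, 0 ≤ w B) ∧ (∀ B, B ∉ A → w B = 0) ∧ ∑ B ∈ A, w B = 1 ∧ ∑ B ∈ A, w B • ev B = x}

theorem isCompact_Wts (A : Finset (Finset (Fin n))) (x : Fin n → ℝ) : IsCompact (Wts A x) := by
  apply IsCompact.of_isClosed_subset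
    (isCompact_Icc : IsCompact (Icc (0 : Finset (Fin n) → ℝ) 1))
  · have h1 : IsClosed {w : Finset (Fin n) → ℝ | ∀ B, 0 ≤ w B} := by
      have : {w : Finset (Fin n) → ℝ | ∀ B, 0 ≤ w B} = ⋂ B, {w | 0 ≤ w B} := by
        ext w; simp
      rw [this]
      exact isClosed_iInter (fun B => isClosed_le continuous_const (continuous_apply B))
    have h2 : IsClosed {w : Finset (Fin n) → ℝ | ∀ B, B ∉ A → w B = 0} := by
      have : {w : Finset (Fin n) → ℝ | ∀ B, B ∉ A → w B = 0} = ⋂ B, ⋂ (_ : B ∉ A), {w | w B = 0} := by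
        ext w; simp
      rw [this]
      exact isClosed_iInter (fun B => isClosed_iInter (fun _ =>
        isClosed_eq (continuous_apply B) continuous_const))
    have h3 : IsClosed {w : Finset (Fin n) → ℝ | ∑ B ∈ A, w B = 1} :=
      isClosed_eq (continuous_finsetSum _ (fun B _ => continuous_apply B)) continuous_const
    have h4 : IsClosed {w : Finset (Fin n) → ℝ | ∑ B ∈ A, w B • ev B = x} :=
      isClosed_eq (continuous_finsetSum _ (fun B _ => (continuous_apply B).smul continuous_const))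
        continuous_const
    have : Wts A x = {w | ∀ B, 0 ≤ w B} ∩ ({w | ∀ B, B ∉ A → w B = 0} ∩
        ({w | ∑ B ∈ A, w B = 1} ∩ {w | ∑ B ∈ A, w B • ev B = x})) := by
      ext w; simp [Wts]
    rw [this]
    exact h1.inter (h2.inter (h3.inter h4))
  · rintro w ⟨h0, h1, h2, h3⟩
    refine ⟨h0, fun B => ?_⟩
    by_cases hB : B ∈ A
    · have := Finset.single_le_sum (fun C _ => h0 C) hB
      rw [h2] at this
      exact this
    · rw [h1 B hB]; norm_num

/-- exchange argument: a point of `poly A` lies in the polytope of the members of `A` with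
potential zero -/
theorem pot {A : Finset (Finset (Fin n))} {x : Fin n → ℝ} (hx : x ∈ poly A)
    (φ : Finset (Fin n) → ℕ)
    (h : ∀ w ∈ Wts A x, ∀ B1 ∈ A, 0 < w B1 → 0 < φ B1 → ∃ B2 ∈ A, 0 < w B2 ∧ ∃ C1 ∈ A, ∃ C2 ∈ A,
      ev B1 + ev B2 = ev C1 + ev C2 ∧ φ C1 + φ C2 < φ B1 + φ B2) :
    x ∈ poly (A.filter (fun B => φ B = 0)) := by
  classical
  have hne : (Wts A x).Nonempty := by
    obtain ⟨w, hw⟩ := mem_poly.1 hx
    exact ⟨w, hw⟩
  have hcont : ContinuousOn (fun w : Finset (Fin n) → ℝ => ∑ B ∈ A, w B * φ B) (Wts A x) := by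
    apply Continuous.continuousOn
    exact continuous_finsetSum _ (fun B _ => (continuous_apply B).mul continuous_const)
  obtain ⟨w, hw, hmin⟩ := (isCompact_Wts A x).exists_isMinOn hne hcont
  obtain ⟨h0, h1, h2, h3⟩ := id hw
  have key : ∀ B ∈ A, 0 < w B → φ B = 0 := by
    intro B1 hB1 hw1
    by_contra hφ
    obtain ⟨B2, hB2, hw2, C1, hC1, C2, hC2, hev, hlt⟩ :=
      h w hw B1 hB1 hw1 (Nat.pos_of_ne_zero hφ)
    set t := min (w B1) (w B2) / 2 with ht
    have htpos : 0 < t := by
      have : 0 < min (w B1) (w B2) := lt_min hw1 hw2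
      linarith
    have ht1 : 2 * t ≤ w B1 := by
      have : min (w B1) (w B2) ≤ w B1 := min_le_left _ _
      linarith
    have ht2 : 2 * t ≤ w B2 := by
      have : min (w B1) (w B2) ≤ w B2 := min_le_right _ _
      linarith
    let δ : Finset (Fin n) → Finset (Fin n) → ℝ := fun B C => if C = B then 1 else 0
    let w' : Finset (Fin n) → ℝ := fun C => w C - t * δ B1 C - t * δ B2 C + t * δ C1 C + t * δ C2 C
    have hδ0 : ∀ B C, 0 ≤ δ B C := by
      intro B C; simp only [δ]; split_ifs <;> norm_num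
    have hδs : ∀ B ∈ A, ∀ g : Finset (Fin n) → ℝ, ∑ C ∈ A, δ B C * g C = g B := by
      intro B hB g
      simp only [δ, ite_mul, one_mul, zero_mul]
      rw [Finset.sum_ite_eq' A B]
      simp [hB]
    have hδ1 : ∀ B ∈ A, ∑ C ∈ A, δ B C = 1 := by
      intro B hB
      have := hδs B hB (fun _ => 1)
      simpa using this
    have hδv : ∀ B ∈ A, ∑ C ∈ A, δ B C • ev C = ev B := by
      intro B hB
      simp only [δ, ite_smul, one_smul, zero_smul]
      rw [Finset.sum_ite_eq' A B]
      simp [hB]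
    have hw' : w' ∈ Wts A x := by
      refine ⟨?_, ?_, ?_, ?_⟩
      · intro C
        have hc1 := mul_nonneg htpos.le (hδ0 C1 C)
        have hc2 := mul_nonneg htpos.le (hδ0 C2 C)
        have hC0 := h0 C
        have : 0 ≤ w C - t * δ B1 C - t * δ B2 C := by
          simp only [δ]
          by_cases e1 : C = B1 <;> by_cases e2 : C = B2
          · rw [if_pos e1, if_pos e2, e1]; linarith
          · rw [if_pos e1, if_neg e2, e1]; linarith
          · rw [if_neg e1, if_pos e2, e2]; linarith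
          · rw [if_neg e1, if_neg e2]; linarith
        simp only [w']
        linarith
      · intro C hC
        have hδz : ∀ B ∈ A, δ B C = 0 := by
          intro B hB
          simp only [δ]
          rw [if_neg]
          rintro rfl; exact hC hB
        simp only [w']
        rw [h1 C hC, hδz B1 hB1, hδz B2 hB2, hδz C1 hC1, hδz C2 hC2]
        ring
      · simp only [w']
        rw [Finset.sum_add_distrib, Finset.sum_add_distrib, Finset.sum_sub_distrib,
          Finset.sum_sub_distrib, ← Finset.mul_sum, ← Finset.mul_sum, ← Finset.mul_sum,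
          ← Finset.mul_sum, hδ1 B1 hB1, hδ1 B2 hB2, hδ1 C1 hC1, hδ1 C2 hC2, h2]
        ring
      · have e : ∀ C, w' C • ev C = w C • ev C - t • (δ B1 C • ev C) - t • (δ B2 C • ev C)
            + t • (δ C1 C • ev C) + t • (δ C2 C • ev C) := by
          intro C
          simp only [w', add_smul, sub_smul, mul_smul]
        rw [Finset.sum_congr rfl (fun C _ => e C), Finset.sum_add_distrib, Finset.sum_add_distrib,
          Finset.sum_sub_distrib, Finset.sum_sub_distrib, ← Finset.smul_sum, ← Finset.smul_sum,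
          ← Finset.smul_sum, ← Finset.smul_sum, hδv B1 hB1, hδv B2 hB2, hδv C1 hC1, hδv C2 hC2, h3]
        have : t • ev B1 + t • ev B2 = t • ev C1 + t • ev C2 := by
          rw [← smul_add, ← smul_add, hev]
        calc x - t • ev B1 - t • ev B2 + t • ev C1 + t • ev C2
            = x - (t • ev B1 + t • ev B2) + (t • ev C1 + t • ev C2) := by abel
          _ = x := by rw [this]; abel
    have hle := hmin hw'
    simp only [mem_setOf_eq] at hle
    have e : ∑ C ∈ A, w' C * (φ C : ℝ) = ∑ C ∈ A, w C * (φ C : ℝ) - t * φ B1 - t * φ B2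
        + t * φ C1 + t * φ C2 := by
      have e1 : ∀ C, w' C * (φ C : ℝ) = w C * φ C - t * (δ B1 C * φ C) - t * (δ B2 C * φ C)
          + t * (δ C1 C * φ C) + t * (δ C2 C * φ C) := by
        intro C; simp only [w']; ring
      rw [Finset.sum_congr rfl (fun C _ => e1 C), Finset.sum_add_distrib, Finset.sum_add_distrib,
        Finset.sum_sub_distrib, Finset.sum_sub_distrib, ← Finset.mul_sum, ← Finset.mul_sum,
        ← Finset.mul_sum, ← Finset.mul_sum, hδs B1 hB1, hδs B2 hB2, hδs C1 hC1, hδs C2 hC2]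
    have hle' : ∑ C ∈ A, w C * (φ C : ℝ) ≤ ∑ C ∈ A, w' C * (φ C : ℝ) := hle
    rw [e] at hle'
    have hlt' : (φ C1 : ℝ) + φ C2 < φ B1 + φ B2 := by exact_mod_cast hlt
    nlinarith
  rw [mem_poly]
  have hz : ∀ B ∈ A, B ∉ A.filter (fun B => φ B = 0) → w B = 0 := by
    intro B hB hn
    by_contra hne'
    exact hn (Finset.mem_filter.2 ⟨hB, key B hB (lt_of_le_of_ne (h0 B) (Ne.symm hne'))⟩)
  refine ⟨w, h0, ?_, ?_, ?_⟩
  · intro B hB
    by_cases hA : B ∈ A
    · exact hz B hA hB
    · exact h1 B hA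
  · rw [← h2]
    exact Finset.sum_subset (Finset.filter_subset _ _) hz
  · rw [← h3]
    exact Finset.sum_subset (Finset.filter_subset _ _) (fun B hB hn => by rw [hz B hB hn, zero_smul])

/-- if the `S`-sum is at most `c`, a member of the support with more than `c` elements of `S`
forces one with fewer -/
theorem exists_lt {A : Finset (Finset (Fin n))} {x : Fin n → ℝ} {w : Finset (Fin n) → ℝ}
    (hw : w ∈ Wts A x) {S : Finset (Fin n)} {c : ℕ} (hx : sm S x ≤ c) {B1 : Finset (Fin n)}
    (hB1 : B1 ∈ A) (hw1 : 0 < w B1) (hc : c < (B1 ∩ S).card) :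
    ∃ B2 ∈ A, 0 < w B2 ∧ (B2 ∩ S).card < c := by
  by_contra hcon
  push Not at hcon
  obtain ⟨h0, h1, h2, h3⟩ := hw
  have e1 : sm S x = ∑ B ∈ A, w B * ((B ∩ S).card : ℝ) := by
    rw [← h3, map_sum]
    exact Finset.sum_congr rfl (fun B _ => by rw [map_smul, sm_ev, smul_eq_mul])
  have e2 : (c : ℝ) = ∑ B ∈ A, w B * (c : ℝ) := by rw [← Finset.sum_mul, h2, one_mul]
  have : ∑ B ∈ A, w B * (c : ℝ) < ∑ B ∈ A, w B * ((B ∩ S).card : ℝ) := by
    apply Finset.sum_lt_sum
    · intro B hB
      rcases (h0 B).eq_or_lt with h | h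
      · rw [← h]; simp
      · have : (c : ℝ) ≤ (B ∩ S).card := by exact_mod_cast hcon B hB h
        nlinarith
    · refine ⟨B1, hB1, ?_⟩
      have : (c : ℝ) < (B1 ∩ S).card := by exact_mod_cast hc
      nlinarith
  rw [← e2, ← e1] at this
  linarith

theorem exists_gt {A : Finset (Finset (Fin n))} {x : Fin n → ℝ} {w : Finset (Fin n) → ℝ}
    (hw : w ∈ Wts A x) {S : Finset (Fin n)} {c : ℕ} (hx : (c : ℝ) ≤ sm S x) {B1 : Finset (Fin n)}
    (hB1 : B1 ∈ A) (hw1 : 0 < w B1) (hc : (B1 ∩ S).card < c) :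
    ∃ B2 ∈ A, 0 < w B2 ∧ c < (B2 ∩ S).card := by
  by_contra hcon
  push Not at hcon
  obtain ⟨h0, h1, h2, h3⟩ := hw
  have e1 : sm S x = ∑ B ∈ A, w B * ((B ∩ S).card : ℝ) := by
    rw [← h3, map_sum]
    exact Finset.sum_congr rfl (fun B _ => by rw [map_smul, sm_ev, smul_eq_mul])
  have e2 : (c : ℝ) = ∑ B ∈ A, w B * (c : ℝ) := by rw [← Finset.sum_mul, h2, one_mul]
  have : ∑ B ∈ A, w B * ((B ∩ S).card : ℝ) < ∑ B ∈ A, w B * (c : ℝ) := by
    apply Finset.sum_lt_sum
    · intro B hB
      rcases (h0 B).eq_or_lt with h | h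
      · rw [← h]; simp
      · have : ((B ∩ S).card : ℝ) ≤ c := by exact_mod_cast hcon B hB h
        nlinarith
    · refine ⟨B1, hB1, ?_⟩
      have : ((B1 ∩ S).card : ℝ) < c := by exact_mod_cast hc
      nlinarith
  rw [← e2, ← e1] at this
  linarith

end Pool.Agent.Q145.MS
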