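import Pool.Agent.Q145.MS.Paving
import Pool.Agent.Q145.MS.Cert

set_option autoImplicit false

namespace Pool.Agent.Q145.MS

open Set

/-- finset of a code -/
def mset (a : ℕ) : Finset (Fin 9) := Finset.univ.filter (fun i => a.testBit i = true)

theorem mem_mset {a : ℕ} {i : Fin 9} : i ∈ mset a ↔ a.testBit i = true := by simp [mset]

/-- code of a finset -/
def code (B : Finset (Fin 9)) : ℕ := ∑ i ∈ B, 2 ^ (i : ℕ)

theorem mset_and (a b : ℕ) : mset (a &&& b) = mset a ∩ mset b := by
  ext i; simp [mem_mset]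

theorem pc_eq (a : ℕ) : pc a = (mset a).card := by
  unfold mset pc
  rw [Finset.card_filter]
  simp only [Fin.sum_univ_succ, Fin.sum_univ_zero]
  simp
  ring

theorem mset_xor {a x y : ℕ} (hx : x < 9) (hy : y < 9) (hxa : a.testBit x = true)
    (hya : a.testBit y = false) :
    mset (a ^^^ 2 ^ x ^^^ 2 ^ y) = insert (⟨y, hy⟩ : Fin 9) ((mset a).erase ⟨x, hx⟩) := by
  ext i
  rw [mem_mset, Finset.mem_insert, Finset.mem_erase, mem_mset, Nat.testBit_xor, Nat.testBit_xor,
    Nat.testBit_two_pow, Nat.testBit_two_pow]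
  have hxy : x ≠ y := by rintro rfl; rw [hxa] at hya; exact absurd hya (by simp)
  have e1 : (i = (⟨y, hy⟩ : Fin 9)) ↔ y = (i : ℕ) := by
    rw [Fin.ext_iff]; exact eq_comm
  have e2 : (i ≠ (⟨x, hx⟩ : Fin 9)) ↔ x ≠ (i : ℕ) := by
    rw [Ne, Fin.ext_iff]; exact not_congr eq_comm
  rw [e1, e2]
  by_cases h1 : x = (i : ℕ)
  · have h2 : ¬ y = (i : ℕ) := fun h => hxy (h1.trans h.symm)
    rw [← h1] at h2 ⊢
    simp [hxa, h2]
  · by_cases h2 : y = (i : ℕ)
    · rw [← h2] at h1 ⊢
      simp [hya, h1]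
    · simp [h1, h2]

/-- the nine lines -/
def lines : Finset (Finset (Fin 9)) :=
  {{0, 1, 2, 3}, {0, 4, 5, 6}, {0, 7, 8}, {1, 4, 7}, {2, 4, 8}, {3, 5, 7}, {1, 5, 8}, {2, 6, 7},
    {3, 6, 8}}

theorem lines_inter : ∀ ℓ ∈ lines, ∀ m ∈ lines, ℓ ≠ m → (ℓ ∩ m).card ≤ 1 := by
  decide +kernel

theorem neg0_spec : ∀ m ∈ List.range 512, neg0.testBit m = true → mset m ∉ Mf lines := by
  decide +kernel

theorem neg0_lt {m : ℕ} (h : neg0.testBit m = true) : m < 512 := by
  by_contra hcon
  push Not at hcon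
  have : neg0 < 2 ^ m := by
    calc neg0 < 2 ^ 512 := by decide +kernel
      _ ≤ 2 ^ m := Nat.pow_le_pow_right (by norm_num) hcon
  rw [Nat.testBit_lt_two_pow this] at h
  exact absurd h (by simp)

theorem code_spec : ∀ B ∈ Mf lines, code B ∈ V ∧ mset (code B) = B := by
  decide +kernel

/-- soundness of the checker -/
theorem chk_sound {N : Finset (Finset (Fin 9))} (hN : IsMat N) (hsub : N ⊆ Mf lines)
    (hrk : ∀ S : Finset (Fin 9), ∀ r : ℕ, 3 * (r - 1) < S.card → ∃ B ∈ N, r ≤ (B ∩ S).card)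
    (t : Tr) : ∀ pos neg : ℕ, (∀ m, pos.testBit m = true → mset m ∈ N) →
      (∀ m, neg.testBit m = true → mset m ∉ N) → chk t pos neg = true → False := by
  induction t with
  | ex m1 m2 x =>
    intro pos neg hpos hneg h
    simp only [chk, Bool.and_eq_true, decide_eq_true_eq, List.all_eq_true, List.mem_range,
      Bool.or_eq_true, Bool.not_eq_true'] at h
    obtain ⟨h1, h2, h3, h4, hx, h5⟩ := h
    obtain ⟨y, hy2, hy1, hmem, _⟩ := hN.symm (hpos m1 h1) (hpos m2 h2) (x := ⟨x, hx⟩)
      (mem_mset.2 h3) (fun h => by rw [mem_mset] at h; simp only at h; rw [h4] at h; simp at h)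
    rw [mem_mset] at hy2 hy1
    have hy1' : m1.testBit (y : ℕ) = false := by simpa using hy1
    have := h5 y y.2
    rcases this with h | h | h
    · rw [h] at hy2; simp at hy2
    · rw [h] at hy1; simp at hy1
    · apply hneg _ h
      rw [mset_xor hx y.2 h3 hy1']
      exact hmem
  | rk S r =>
    intro pos neg hpos hneg h
    simp only [chk, Bool.and_eq_true, decide_eq_true_eq, List.all_eq_true, Bool.or_eq_true] at h
    obtain ⟨h1, h2⟩ := h
    rw [pc_eq] at h1
    obtain ⟨B, hB, hr⟩ := hrk (mset S) r h1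
    obtain ⟨hV, hc⟩ := code_spec B (hsub hB)
    rcases h2 _ hV with h | h
    · rw [pc_eq, mset_and, hc] at h
      omega
    · apply hneg _ h
      rw [hc]; exact hB
  | sp m t f iht ihf =>
    intro pos neg hpos hneg h
    simp only [chk, Bool.and_eq_true] at h
    by_cases hm : mset m ∈ N
    · refine iht _ _ ?_ hneg h.1
      intro m' hm'
      rw [Nat.testBit_or, Bool.or_eq_true] at hm'
      rcases hm' with h' | h'
      · exact hpos m' h'
      · rw [Nat.testBit_two_pow, decide_eq_true_eq] at h'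
        rw [← h']; exact hm
    · refine ihf _ _ hpos ?_ h.2
      intro m' hm'
      rw [Nat.testBit_or, Bool.or_eq_true] at hm'
      rcases hm' with h' | h'
      · exact hneg m' h'
      · rw [Nat.testBit_two_pow, decide_eq_true_eq] at h'
        rw [← h']; exact hm

theorem chkAll_sound {N : Finset (Finset (Fin 9))} (hN : IsMat N) (hsub : N ⊆ Mf lines)
    (hrk : ∀ S : Finset (Fin 9), ∀ r : ℕ, 3 * (r - 1) < S.card → ∃ B ∈ N, r ≤ (B ∩ S).card)
    (l : List (ℕ × Tr)) : ∀ pos : ℕ, (∀ m, pos.testBit m = true → mset m ∈ N) →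
      chkAll l pos = true → ∀ m ∈ l.map Prod.fst, mset m ∈ N := by
  induction l with
  | nil => intro pos _ _ m hm; simp at hm
  | cons a rest ih =>
    obtain ⟨m0, t⟩ := a
    intro pos hpos h m hm
    simp only [chkAll, Bool.and_eq_true] at h
    have hm0 : mset m0 ∈ N := by
      by_contra hcon
      refine chk_sound hN hsub hrk t pos _ hpos ?_ h.1
      intro m' hm'
      rw [Nat.testBit_or, Bool.or_eq_true] at hm'
      rcases hm' with h' | h'
      · intro hin
        exact neg0_spec m' (List.mem_range.2 (neg0_lt h')) h' (hsub hin)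
      · rw [Nat.testBit_two_pow, decide_eq_true_eq] at h'
        rw [← h']; exact hcon
    simp only [List.map_cons, List.mem_cons] at hm
    rcases hm with rfl | hm
    · exact hm0
    · refine ih _ ?_ h.2 m hm
      intro m' hm'
      rw [Nat.testBit_or, Bool.or_eq_true] at hm'
      rcases hm' with h' | h'
      · exact hpos m' h'
      · rw [Nat.testBit_two_pow, decide_eq_true_eq] at h'
        rw [← h']; exact hm0

/-- the matroid with the nine lines is the only matroid below it whose polytope contains the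
point `(1/3, ..., 1/3)` -/
theorem rigid {N : Finset (Finset (Fin 9))} (hN : IsMat N) (hsub : N ⊆ Mf lines)
    (hc : (fun _ => 1 / 3 : Fin 9 → ℝ) ∈ poly N) : N = Mf lines := by
  have hrk : ∀ S : Finset (Fin 9), ∀ r : ℕ, 3 * (r - 1) < S.card →
      ∃ B ∈ N, r ≤ (B ∩ S).card := by
    intro S r hr
    by_contra hcon
    push Not at hcon
    have h1 : sm S (fun _ => 1 / 3 : Fin 9 → ℝ) ≤ ((r - 1 : ℕ) : ℝ) := by
      apply sm_le _ hc
      intro B hB
      have := hcon B hB
      omega
    rw [sm_apply, Finset.sum_const, nsmul_eq_mul] at h1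
    have h2 : (3 * (r - 1 : ℕ) : ℝ) < S.card := by exact_mod_cast hr
    linarith
  apply Finset.Subset.antisymm hsub
  intro B hB
  obtain ⟨hV, hc⟩ := code_spec B hB
  rw [← hc]
  exact chkAll_sound hN hsub hrk certs 0 (fun m hm => by simp at hm) chkAll_certs _
    (V_subset _ hV)

end Pool.Agent.Q145.MS
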